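import Pool.Agent.Lib.Helper10.YY3.D0

/-!
The aiming lemma: in every window of parameters of length `ε` there is a window of good
parameters of length `min (ε/4) (b * lam^2 * h / 4)`.
-/

namespace Pool.Agent.Lib.Helper10.YY3

/-- parameters above the value at the node `(lam, 0)` are good -/
theorem good_of_gt {b lam h : ℝ} {T Nd : Set (ℝ × ℝ)} (ht : Tgt b lam h T Nd)
    {κ g δ r : ℝ} (hr : g / (lam + δ) < r) : GoodR T Nd κ g δ r := by
  have hF : Fa κ g δ (lam, 0) = g / (lam + δ) := by simp [Fa]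
  refine ⟨fun p hp hpr => ?_, fun p hp hpr => ?_⟩
  · by_cases h1 : p.1 < lam
    · have h2 := ht.left p hp h1
      exact ⟨p, by rw [h2]; exact ht.n0, le_rfl, hpr⟩
    · push Not at h1
      exact ⟨(lam, 0), ht.nl, h1, by rw [hF]; exact hr⟩
  · by_cases h1 : p.1 < lam
    · have h2 := ht.left p hp h1
      exact ⟨p, by rw [h2]; exact ht.n0, le_rfl, hpr⟩
    · push Not at h1
      exact ⟨(lam, 0), ht.nl, h1, by rw [hF]; exact hr.le⟩

/-- parameters just above the value at a lattice node are good -/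
theorem good_of_node {b lam h : ℝ} {T Nd : Set (ℝ × ℝ)} (hb : 0 < b) (hl : 0 < lam)
    (hh : 0 < h) (ht : Tgt b lam h T Nd) {κ g g₀ δ r : ℝ} (hδ : lam ≤ δ) (hδ1 : δ ≤ 1)
    (hg₀ : b * lam ≤ g₀) (hlow : ∀ p ∈ T, g₀ / (p.1 + δ) ≤ Fa κ g δ p)
    {c : ℝ × ℝ} (hc : c ∈ Nd) (hcF : Fa κ g δ c = g₀ / (c.1 + δ))
    (hgap : ∀ p ∈ T, p.1 < c.1 → p.1 ≤ c.1 - lam * h)
    (hr1 : g₀ / (c.1 + δ) < r) (hr2 : r < g₀ / (c.1 + δ) + b * lam ^ 2 * h / 4) :
    GoodR T Nd κ g δ r := by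
  have hcT := ht.sub hc
  have hcbox := ht.box c hcT
  have hblam : 0 < b * lam := mul_pos hb hl
  have hg₀pos : 0 < g₀ := lt_of_lt_of_le hblam hg₀
  have key : ∀ p ∈ T, Fa κ g δ p ≤ r → c.1 ≤ p.1 := by
    intro p hp hpr
    by_contra hcon
    push Not at hcon
    have h1 := hgap p hp hcon
    have h2 := hlow p hp
    have hp0 := (ht.box p hp).1
    have hpd : 0 < p.1 + δ := by linarith
    have hcd : 0 < c.1 + δ := by linarith
    have h3 : g₀ / (c.1 + δ) + b * lam ^ 2 * h / 4 ≤ g₀ / (p.1 + δ) := by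
      have e : g₀ / (p.1 + δ) - g₀ / (c.1 + δ) = g₀ * (c.1 - p.1) / ((p.1 + δ) * (c.1 + δ)) := by
        field_simp
        ring
      have h4 : b * lam ^ 2 * h / 4 ≤ g₀ * (c.1 - p.1) / ((p.1 + δ) * (c.1 + δ)) := by
        rw [le_div_iff₀ (mul_pos hpd hcd)]
        have h5 : (p.1 + δ) * (c.1 + δ) ≤ 4 := by
          have a1 : p.1 + δ ≤ 2 := by
            have := (ht.box p hp).2.1
            linarith
          have a2 : c.1 + δ ≤ 2 := by
            have := hcbox.2.1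
            linarith
          nlinarith
        have h6 : b * lam * (lam * h) ≤ g₀ * (c.1 - p.1) :=
          mul_le_mul hg₀ (by linarith) (mul_pos hl hh).le hg₀pos.le
        have h7 : 0 ≤ b * lam ^ 2 * h / 4 := by positivity
        calc b * lam ^ 2 * h / 4 * ((p.1 + δ) * (c.1 + δ)) ≤ b * lam ^ 2 * h / 4 * 4 :=
              mul_le_mul_of_nonneg_left h5 h7
          _ = b * lam * (lam * h) := by ring
          _ ≤ _ := h6
      linarith
    linarith
  refine ⟨fun p hp hpr => ⟨c, hc, key p hp hpr.le, by rw [hcF]; exact hr1⟩,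
    fun p hp hpr => ⟨c, hc, key p hp hpr, by rw [hcF]; exact hr1.le⟩⟩

/-- small parameters are good -/
theorem good_of_lt {b lam h : ℝ} {T Nd : Set (ℝ × ℝ)} (hl : 0 < lam)
    (ht : Tgt b lam h T Nd) {κ g g₀ δ r : ℝ} (hδ : lam ≤ δ)
    (hg₀ : 0 < g₀) (hlow : ∀ p ∈ T, g₀ / (p.1 + δ) ≤ Fa κ g δ p) (hlam1 : lam < 1)
    (hr : r < g₀ / (1 - lam + δ)) : GoodR T Nd κ g δ r := by
  have key : ∀ p ∈ T, Fa κ g δ p ≤ r → p = (1, 0) := by
    intro p hp hpr
    apply ht.right p hp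
    by_contra hcon
    push Not at hcon
    have h2 := hlow p hp
    have hp0 := (ht.box p hp).1
    have h3 : g₀ / (1 - lam + δ) ≤ g₀ / (p.1 + δ) :=
      div_le_div_of_nonneg_left hg₀.le (by linarith) (by linarith)
    linarith
  refine ⟨fun p hp hpr => ⟨p, ?_, le_rfl, hpr⟩, fun p hp hpr => ⟨p, ?_, le_rfl, hpr⟩⟩
  · rw [key p hp hpr.le]; exact ht.n1
  · rw [key p hp hpr]; exact ht.n1

/-- the common part of the two cases of the aiming lemma -/
theorem aim_core {b lam h : ℝ} {T Nd : Set (ℝ × ℝ)} (hb : 0 < b) (hl : 0 < lam)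
    (hl4 : lam ≤ 1 / 4) (hh : 0 < h) (hhl : h ≤ lam / 4) (ht : Tgt b lam h T Nd)
    {κ g g₀ δ ε z₀ : ℝ} (hδ : lam ≤ δ) (hδ1 : δ ≤ 1)
    (hg₀ : b * lam ≤ g₀) (hg₀3 : g₀ ≤ 3 * b) (hε : 0 < ε)
    (hd : 40 * b * h / lam ^ 2 ≤ ε)
    (hlow : ∀ p ∈ T, g₀ / (p.1 + δ) ≤ Fa κ g δ p) (hz₀ : lam ≤ z₀)
    (hz₀V : g / (lam + δ) ≤ g₀ / (z₀ + δ) + ε / 4)
    (hlat : ∀ z, z₀ ≤ z → z ≤ 1 - lam → ∃ c ∈ Nd, Fa κ g δ c = g₀ / (c.1 + δ) ∧
      z - 2 * h ≤ c.1 ∧ c.1 ≤ z ∧ ∀ p ∈ T, p.1 < c.1 → p.1 ≤ c.1 - lam * h) (r₁ : ℝ) :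
    ∃ r₂, r₁ ≤ r₂ ∧ r₂ + min (ε / 4) (b * lam ^ 2 * h / 4) ≤ r₁ + ε ∧
      ∀ r, r₂ < r → r < r₂ + min (ε / 4) (b * lam ^ 2 * h / 4) → GoodR T Nd κ g δ r := by
  have hblam : 0 < b * lam := mul_pos hb hl
  have hg₀pos : 0 < g₀ := lt_of_lt_of_le hblam hg₀
  set w : ℝ := min (ε / 4) (b * lam ^ 2 * h / 4) with hw
  have hw1 : w ≤ ε / 4 := min_le_left _ _
  have hw2 : w ≤ b * lam ^ 2 * h / 4 := min_le_right _ _
  have hδpos : 0 < δ := lt_of_lt_of_le hl hδ
  by_cases hA : r₁ + w ≤ g₀ / (1 - lam + δ)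
  · refine ⟨r₁, le_rfl, by linarith, fun r _ hr2 => ?_⟩
    exact good_of_lt hl ht hδ hg₀pos hlow (by linarith) (by linarith)
  push Not at hA
  by_cases hB : g / (lam + δ) ≤ r₁
  · refine ⟨r₁, le_rfl, by linarith, fun r hr1 _ => ?_⟩
    exact good_of_gt ht (by linarith)
  push Not at hB
  set r' : ℝ := r₁ + ε / 2 with hr'
  have hV1 : 0 < g₀ / (1 - lam + δ) := div_pos hg₀pos (by linarith)
  have hr'V : g₀ / (1 - lam + δ) < r' := by rw [hr']; linarith
  have hr'pos : 0 < r' := hV1.trans hr'V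
  set z : ℝ := g₀ / r' - δ with hz
  have hzδ : z + δ = g₀ / r' := by rw [hz]; ring
  have hzδpos : 0 < z + δ := by rw [hzδ]; exact div_pos hg₀pos hr'pos
  have hVz : g₀ / (z + δ) = r' := by
    rw [hzδ, div_div_eq_mul_div, mul_comm, mul_div_assoc, div_self hg₀pos.ne', mul_one]
  have hz1 : z ≤ 1 - lam := by
    by_contra hcon
    push Not at hcon
    have : g₀ / (z + δ) ≤ g₀ / (1 - lam + δ) :=
      div_le_div_of_nonneg_left hg₀pos.le (by linarith) (by linarith)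
    linarith
  by_cases hC : z₀ ≤ z
  · obtain ⟨c, hcN, hcF, hc1, hc2, hgap⟩ := hlat z hC hz1
    have hcpos : 0 ≤ c.1 := (ht.box c (ht.sub hcN)).1
    have hcδ : lam ≤ c.1 + δ := by linarith
    have hzδ' : lam ≤ z + δ := by linarith
    have hcδpos : 0 < c.1 + δ := lt_of_lt_of_le hl hcδ
    have hle : g₀ / (z + δ) ≤ g₀ / (c.1 + δ) :=
      div_le_div_of_nonneg_left hg₀pos.le hcδpos (by linarith)
    have hup : g₀ / (c.1 + δ) ≤ r' + ε / 4 := by
      rw [← hVz]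
      have e : g₀ / (c.1 + δ) - g₀ / (z + δ) = g₀ * (z - c.1) / ((c.1 + δ) * (z + δ)) := by
        field_simp
        ring
      have h1 : g₀ * (z - c.1) / ((c.1 + δ) * (z + δ)) ≤ 6 * b * h / lam ^ 2 := by
        rw [div_le_div_iff₀ (mul_pos hcδpos hzδpos) (by positivity)]
        have h2 : g₀ * (z - c.1) ≤ 3 * b * (2 * h) :=
          mul_le_mul hg₀3 (by linarith) (by linarith) (by positivity)
        have h3 : lam * lam ≤ (c.1 + δ) * (z + δ) := mul_le_mul hcδ hzδ' hl.le hcδpos.le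
        calc g₀ * (z - c.1) * lam ^ 2 ≤ 3 * b * (2 * h) * lam ^ 2 :=
              mul_le_mul_of_nonneg_right h2 (by positivity)
          _ = 6 * b * h * (lam * lam) := by ring
          _ ≤ 6 * b * h * ((c.1 + δ) * (z + δ)) :=
              mul_le_mul_of_nonneg_left h3 (by positivity)
      have h4 : 6 * b * h / lam ^ 2 ≤ ε / 4 := by
        have h5 : 0 ≤ b * h / lam ^ 2 := by positivity
        have h6 : 40 * b * h / lam ^ 2 = 40 * (b * h / lam ^ 2) := by ring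
        have h7 : 6 * b * h / lam ^ 2 = 6 * (b * h / lam ^ 2) := by ring
        rw [h6] at hd
        rw [h7]
        linarith
      linarith
    refine ⟨g₀ / (c.1 + δ), by rw [hVz] at hle; linarith, by linarith, fun r hra hrb => ?_⟩
    exact good_of_node hb hl hh ht hδ hδ1 hg₀ hlow hcN hcF hgap hra (by linarith)
  · push Not at hC
    have hlt : g₀ / (z₀ + δ) < r' := by
      rw [← hVz]
      exact div_lt_div_of_pos_left hg₀pos hzδpos (by linarith)
    refine ⟨g / (lam + δ), hB.le, by linarith, fun r hra _ => ?_⟩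
    exact good_of_gt ht hra

/-- The aiming lemma. -/
theorem aim {b lam h : ℝ} {T Nd : Set (ℝ × ℝ)} (hb : 0 < b) (hl : 0 < lam)
    (hl4 : lam ≤ 1 / 4) (hh : 0 < h) (hhl : h ≤ lam / 4) (ht : Tgt b lam h T Nd)
    {κ g δ ε : ℝ} (hκ : κ = 1 ∨ κ = -1) (hδ : lam ≤ δ) (hδ1 : δ ≤ 1)
    (hg : b * lam + b * h ≤ g) (hg3 : g ≤ 3 * b) (hε : 0 < ε)
    (hd : 40 * b * h / lam ^ 2 ≤ ε) (r1 : ℝ) :
    ∃ r2, r1 ≤ r2 ∧ r2 + min (ε / 4) (b * lam ^ 2 * h / 4) ≤ r1 + ε ∧
      ∀ r, r2 < r → r < r2 + min (ε / 4) (b * lam ^ 2 * h / 4) → GoodR T Nd κ g δ r := by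
  have hbh : 0 < b * h := mul_pos hb hh
  have hδpos : 0 < δ := lt_of_lt_of_le hl hδ
  rcases hκ with rfl | rfl
  · refine aim_core (g₀ := g) (z₀ := lam) hb hl hl4 hh hhl ht hδ hδ1 (by linarith) hg3 hε hd
      ?_ le_rfl (by linarith) ?_ r1
    · intro p hp
      have hbox := ht.box p hp
      have h1 : 0 < p.1 + δ := by linarith
      unfold Fa
      exact div_le_div_of_nonneg_right (by linarith) h1.le
    · intro z hz1 hz2
      obtain ⟨c, hcN, hc0, h1, h2, h3⟩ := ht.lo z hz1 hz2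
      refine ⟨c, hcN, ?_, h1, h2, h3⟩
      unfold Fa
      rw [hc0, mul_zero, add_zero]
  · refine aim_core (g₀ := g - b * h) (z₀ := lam + h) hb hl hl4 hh hhl ht hδ hδ1 (by linarith)
      (by linarith) hε hd ?_ (by linarith) ?_ ?_ r1
    · intro p hp
      have hbox := ht.box p hp
      have h1 : 0 < p.1 + δ := by linarith
      unfold Fa
      exact div_le_div_of_nonneg_right (by linarith) h1.le
    · have h1 : 0 < lam + δ := by linarith
      have h2 : 0 < lam + h + δ := by linarith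
      have e : g / (lam + δ) - (g - b * h) / (lam + h + δ) =
          (g * h + b * h * (lam + δ)) / ((lam + δ) * (lam + h + δ)) := by
        field_simp
        ring
      have h3 : (g * h + b * h * (lam + δ)) / ((lam + δ) * (lam + h + δ)) ≤
          5 * b * h / lam ^ 2 := by
        rw [div_le_div_iff₀ (mul_pos h1 h2) (by positivity)]
        have h4 : g * h + b * h * (lam + δ) ≤ 5 * b * h := by
          have a1 : g * h ≤ 3 * b * h := mul_le_mul_of_nonneg_right hg3 hh.le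
          have a2 : b * h * (lam + δ) ≤ b * h * 2 :=
            mul_le_mul_of_nonneg_left (by linarith) hbh.le
          linarith
        have h5 : lam * lam ≤ (lam + δ) * (lam + h + δ) :=
          mul_le_mul (by linarith) (by linarith) hl.le h1.le
        calc (g * h + b * h * (lam + δ)) * lam ^ 2 ≤ 5 * b * h * lam ^ 2 :=
              mul_le_mul_of_nonneg_right h4 (by positivity)
          _ = 5 * b * h * (lam * lam) := by ring
          _ ≤ 5 * b * h * ((lam + δ) * (lam + h + δ)) :=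
              mul_le_mul_of_nonneg_left h5 (by positivity)
      have h6 : 5 * b * h / lam ^ 2 ≤ ε / 4 := by
        have h7 : 0 ≤ b * h / lam ^ 2 := by positivity
        have h8 : 40 * b * h / lam ^ 2 = 40 * (b * h / lam ^ 2) := by ring
        have h9 : 5 * b * h / lam ^ 2 = 5 * (b * h / lam ^ 2) := by ring
        rw [h8] at hd
        rw [h9]
        linarith
      linarith
    · intro z hz1 hz2
      obtain ⟨c, hcN, hc0, h1, h2, h3⟩ := ht.hi z hz1 hz2
      refine ⟨c, hcN, ?_, h1, h2, h3⟩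
      unfold Fa
      rw [hc0]
      ring_nf

end Pool.Agent.Lib.Helper10.YY3
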