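import Pool.Agent.Lib.Helper10.YY3.Y3

namespace Pool.Agent.Lib.Helper10.YY3

/-- length lower bound certificate -/
def Long (C : Set (ℝ × ℝ × ℝ)) (T : ℝ → ℝ) : Prop :=
  ∀ s : ℝ, ∃ f : ℝ → ℝ, (∀ x ≤ 0, f x = 0) ∧ (∀ x, 1 ≤ x → f x = f 1) ∧ T s ≤ f 1 ∧
    ∀ p ∈ pt C, ∀ q ∈ pt C, Cons C p q → |f q.1 - f p.1| ≤ |(q.2 - p.2) + s * (q.1 - p.1)|

theorem long_empty : Long ∅ (fun s => |s|) := by
  intro s
  refine ⟨fun x => |s| * max 0 (min x 1), ?_, ?_, ?_, ?_⟩
  · intro x hx
    have : max 0 (min x 1) = 0 := max_eq_left (le_trans (min_le_left _ _) hx)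
    simp only [this, mul_zero]
  · intro x hx
    simp only [min_eq_right hx, min_self]
  · simp
  · intro p hp q hq _
    have hp' : p = (0, 0) ∨ p = (1, 0) := by
      rcases hp with h | h | ⟨σ, h⟩
      · exact Or.inl h
      · exact Or.inr h
      · exact absurd h (Set.notMem_empty _)
    have hq' : q = (0, 0) ∨ q = (1, 0) := by
      rcases hq with h | h | ⟨σ, h⟩
      · exact Or.inl h
      · exact Or.inr h
      · exact absurd h (Set.notMem_empty _)
    rcases hp' with rfl | rfl <;> rcases hq' with rfl | rfl <;> simp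

lemma sum_parity (g : ℕ → ℝ) (u v : ℝ) (hu : ∀ i, i % 2 = 0 → g i = u)
    (hv : ∀ i, i % 2 = 1 → g i = v) (m : ℕ) : ∑ i ∈ Finset.range (2 * m), g i = m * (u + v) := by
  induction m with
  | zero => simp
  | succ m ih =>
    rw [show 2 * (m + 1) = 2 * m + 1 + 1 by ring, Finset.sum_range_succ, Finset.sum_range_succ, ih,
      hu (2 * m) (by omega), hv (2 * m + 1) (by omega)]
    push_cast
    ring

theorem long_zig {lam b : ℝ} {N : ℕ} {C : ℕ → Set (ℝ × ℝ × ℝ)} {T : ℝ → ℝ}
    (H : ZH lam b N C) (hC : ∀ i < N, Long (C i) T) :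
    Long (Zig lam b N C) (fun s => (1 - 2 * lam) * (T (s + b) + T (s - b)) / 2) := by
  intro s
  have hC' : ∀ i : ℕ, ∃ f : ℝ → ℝ, i < N → (∀ x ≤ 0, f x = 0) ∧ (∀ x, 1 ≤ x → f x = f 1) ∧
      T (s + sg i * b) ≤ f 1 ∧ ∀ p ∈ pt (C i), ∀ q ∈ pt (C i), Cons (C i) p q →
        |f q.1 - f p.1| ≤ |(q.2 - p.2) + (s + sg i * b) * (q.1 - p.1)| := by
    intro i
    by_cases hi : i < N
    · obtain ⟨f, hf⟩ := hC i hi (s + sg i * b)
      exact ⟨f, fun _ => hf⟩
    · exact ⟨fun _ => 0, fun h => absurd h hi⟩
  choose f hf using hC'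
  have h0 := H.h0
  have hl := H.l0
  have hl1 := H.l1
  set h := hh lam N with hdef
  have arg_le : ∀ (i : ℕ) (x : ℝ), x ≤ xn lam N i → (x - xn lam N i) / h ≤ 0 := by
    intro i x hx
    exact div_nonpos_of_nonpos_of_nonneg (by linarith) h0.le
  have arg_ge : ∀ (i : ℕ) (x : ℝ), xn lam N (i + 1) ≤ x → 1 ≤ (x - xn lam N i) / h := by
    intro i x hx
    rw [xn_succ] at hx
    rw [le_div_iff₀ h0]
    linarith
  refine ⟨fun x => ∑ i ∈ Finset.range N, h * f i ((x - xn lam N i) / h), ?_, ?_, ?_, ?_⟩
  · intro x hx
    apply Finset.sum_eq_zero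
    intro i hi
    have hi := Finset.mem_range.1 hi
    rw [(hf i hi).1 _ (arg_le i x (by linarith [H.xn_lo i])), mul_zero]
  · intro x hx
    apply Finset.sum_congr rfl
    intro i hi
    have hi := Finset.mem_range.1 hi
    have h1 := H.xn_hi (i := i + 1) hi
    rw [(hf i hi).2.1 _ (arg_ge i x (by linarith)), (hf i hi).2.1 _ (arg_ge i 1 (by linarith))]
  · have e1 : ∑ i ∈ Finset.range N, h * T (s + sg i * b) ≤
        ∑ i ∈ Finset.range N, h * f i ((1 - xn lam N i) / h) := by
      apply Finset.sum_le_sum
      intro i hi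
      have hi := Finset.mem_range.1 hi
      have h1 := H.xn_hi (i := i + 1) hi
      rw [(hf i hi).2.1 _ (arg_ge i 1 (by linarith))]
      exact mul_le_mul_of_nonneg_left (hf i hi).2.2.1 h0.le
    refine le_trans (le_of_eq ?_) e1
    have hN := H.hN
    have hev := H.ev
    obtain ⟨m, hm⟩ : ∃ m, N = 2 * m := ⟨N / 2, by omega⟩
    have e2 : ∑ i ∈ Finset.range N, h * T (s + sg i * b) =
        m * (h * T (s + b) + h * T (s - b)) := by
      rw [hm]
      apply sum_parity (fun i => h * T (s + sg i * b))
      · intro i hi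
        have : sg i = 1 := by unfold sg; rw [if_pos hi]
        simp only [this, one_mul]
      · intro i hi
        have : sg i = -1 := by unfold sg; rw [if_neg (by omega)]
        simp only [this]
        congr 2
        ring
    rw [e2]
    have e3 : (N : ℝ) = 2 * m := by rw [hm]; push_cast; ring
    rw [← hN, e3]
    ring
  · -- the Lipschitz property
    have key : ∀ p ∈ pt (Zig lam b N C), ∀ q ∈ pt (Zig lam b N C), Cons (Zig lam b N C) p q →
        p.1 < q.1 → |(∑ i ∈ Finset.range N, h * f i ((q.1 - xn lam N i) / h)) -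
          ∑ i ∈ Finset.range N, h * f i ((p.1 - xn lam N i) / h)| ≤
          |(q.2 - p.2) + s * (q.1 - p.1)| := by
      intro p hp q hq hcons hlt
      rw [← Finset.sum_sub_distrib]
      by_cases c1 : q.1 ≤ lam
      · rw [Finset.sum_eq_zero]
        · simp
        · intro i hi
          have hi := Finset.mem_range.1 hi
          have h1 := H.xn_lo i
          rw [(hf i hi).1 _ (arg_le i _ (by linarith)), (hf i hi).1 _ (arg_le i _ (by linarith))]
          ring
      by_cases c2 : 1 - lam ≤ p.1
      · rw [Finset.sum_eq_zero]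
        · simp
        · intro i hi
          have hi := Finset.mem_range.1 hi
          have h1 := H.xn_hi (i := i + 1) hi
          rw [(hf i hi).2.1 _ (arg_ge i _ (by linarith)),
            (hf i hi).2.1 _ (arg_ge i _ (by linarith))]
          ring
      push Not at c1 c2
      have c3 : lam ≤ p.1 := by
        by_contra hc
        push Not at hc
        have h1 : nd lam b N 0 ∈ pt (Zig lam b N C) := nd_mem (Nat.zero_le _)
        have h2 : (nd lam b N 0).1 = lam := by
          show xn lam N 0 = lam
          exact xn_zero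
        have h3 := (hcons.2 _ h1).1
        rw [h2] at h3
        exact h3 ⟨hc, c1⟩
      obtain ⟨i, hi, hi1, hi2⟩ := H.exists_tooth c3 c2
      have c4 : q.1 ≤ xn lam N (i + 1) := by
        by_contra hc
        push Not at hc
        have h1 : nd lam b N (i + 1) ∈ pt (Zig lam b N C) := nd_mem hi
        have h3 := (hcons.2 _ h1).1
        exact h3 ⟨hi2, hc⟩
      obtain ⟨p', hp', rfl⟩ := H.tooth_mem hi hp hi1 hi2.le
      obtain ⟨q', hq', rfl⟩ := H.tooth_mem hi hq (by linarith) c4
      have hcons' : Cons (C i) p' q' := by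
        refine ⟨?_, ?_⟩
        · intro he
          have : (am lam b N i p').1 = (am lam b N i q').1 := by rw [am_fst, am_fst, he]
          linarith
        · intro x hx
          have h1 := hcons.2 _ (am_mem hi hx)
          rw [am_fst, am_fst, am_fst] at h1
          constructor
          · rintro ⟨h2, h3⟩
            exact h1.1 ⟨by nlinarith, by nlinarith⟩
          · rintro ⟨h2, h3⟩
            exact h1.2 ⟨by nlinarith, by nlinarith⟩
      have hsum : ∑ j ∈ Finset.range N, (h * f j (((am lam b N i q').1 - xn lam N j) / h) -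
          h * f j (((am lam b N i p').1 - xn lam N j) / h)) =
          h * (f i q'.1 - f i p'.1) := by
        rw [Finset.sum_eq_single_of_mem i (Finset.mem_range.2 hi)]
        · have e1 : ((am lam b N i q').1 - xn lam N i) / h = q'.1 := by
            rw [am_fst]
            field_simp
            rw [hdef]
            ring
          have e2 : ((am lam b N i p').1 - xn lam N i) / h = p'.1 := by
            rw [am_fst]
            field_simp
            rw [hdef]
            ring
          rw [e1, e2]
          ring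
        · intro j hj hji
          have hj := Finset.mem_range.1 hj
          rcases lt_or_gt_of_ne hji with hlt' | hgt
          · have h1 : xn lam N (j + 1) ≤ xn lam N i := H.xn_le hlt'
            rw [(hf j hj).2.1 _ (arg_ge j _ (by linarith)),
              (hf j hj).2.1 _ (arg_ge j _ (by linarith))]
            ring
          · have h1 : xn lam N (i + 1) ≤ xn lam N j := H.xn_le hgt
            rw [(hf j hj).1 _ (arg_le j _ (by linarith)),
              (hf j hj).1 _ (arg_le j _ (by linarith))]
            ring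
      rw [hsum, abs_mul, abs_of_pos h0]
      have h5 := (hf i hi).2.2.2 p' hp' q' hq' hcons'
      have e3 : ((am lam b N i q').2 - (am lam b N i p').2) +
          s * ((am lam b N i q').1 - (am lam b N i p').1) =
          h * ((q'.2 - p'.2) + (s + sg i * b) * (q'.1 - p'.1)) := by
        unfold am
        simp only
        rw [← hdef]
        ring
      rw [e3, abs_mul, abs_of_pos h0]
      exact mul_le_mul_of_nonneg_left h5 h0.le
    intro p hp q hq hcons
    rcases lt_or_gt_of_ne hcons.1 with hlt | hgt
    · exact key p hp q hq hcons hlt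
    · have h1 := key q hq p hp hcons.symm hgt
      have e1 : (q.2 - p.2) + s * (q.1 - p.1) = -((p.2 - q.2) + s * (p.1 - q.1)) := by ring
      rw [e1, abs_neg, abs_sub_comm]
      exact h1

end Pool.Agent.Lib.Helper10.YY3
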