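import Mathlib

namespace Pool.Agent.Lib.Helper10.YY3

open Real

/-- the cone angle `2π/k` -/
noncomputable def coneAngle (k : ℕ) : ℝ := 2 * π / k

/-- The vectors `z` and `z'` lie in a common cone: a half-open sector
`{r e^{iφ} : r > 0, a + jθ ≤ φ < a + (j+1)θ}` with `θ = 2π/k`. The `k` rays at angles
`a + jθ` bound these cones; the indices `j` and `j + k` give the same cone. -/
def SameCone (k : ℕ) (a : ℝ) (z z' : ℂ) : Prop :=
  ∃ (j : ℤ) (r φ r' φ' : ℝ),
    0 < r ∧ a + j * coneAngle k ≤ φ ∧ φ < a + (j + 1) * coneAngle k ∧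
      z = r * Complex.exp (φ * Complex.I) ∧
    0 < r' ∧ a + j * coneAngle k ≤ φ' ∧ φ' < a + (j + 1) * coneAngle k ∧
      z' = r' * Complex.exp (φ' * Complex.I)

lemma coneAngle_pos {k : ℕ} (hk : 2 ≤ k) : 0 < coneAngle k := by
  unfold coneAngle
  have : (0 : ℝ) < k := by exact_mod_cast (by omega : 0 < k)
  have := Real.pi_pos
  positivity

lemma coneAngle_le {k : ℕ} (hk : 2 ≤ k) : coneAngle k ≤ π := by
  unfold coneAngle
  have h : (2 : ℝ) ≤ k := by exact_mod_cast hk
  have hp := Real.pi_pos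
  rw [div_le_iff₀ (by linarith)]
  nlinarith

lemma coneAngle_mul {k : ℕ} (hk : 2 ≤ k) : (k : ℝ) * coneAngle k = 2 * π := by
  unfold coneAngle
  have : (k : ℝ) ≠ 0 := by
    have : (0 : ℝ) < k := by exact_mod_cast (by omega : 0 < k)
    exact this.ne'
  field_simp

/-- polar form of a vector pointing to the right -/
lemma polar_right {z : ℂ} (h : 0 < z.re) :
    z = (‖z‖ : ℝ) * Complex.exp ((arctan (z.im / z.re) : ℝ) * Complex.I) := by
  have hz : z ≠ 0 := by
    rintro rfl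
    simp at h
  have hn : 0 < ‖z‖ := norm_pos_iff.2 hz
  have hsq : ‖z‖ ^ 2 = z.re ^ 2 + z.im ^ 2 := by
    rw [Complex.sq_norm, Complex.normSq_apply]; ring
  have hs : √(1 + (z.im / z.re) ^ 2) = ‖z‖ / z.re := by
    rw [Real.sqrt_eq_iff_mul_self_eq (by positivity) (by positivity)]
    have : z.re ≠ 0 := h.ne'
    field_simp
    linarith [hsq]
  have hre : z.re ≠ 0 := h.ne'
  have hn' : ‖z‖ ≠ 0 := hn.ne'
  have hc : ‖z‖ * cos (arctan (z.im / z.re)) = z.re := by
    rw [Real.cos_arctan, hs]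
    field_simp
  have hs' : ‖z‖ * sin (arctan (z.im / z.re)) = z.im := by
    rw [Real.sin_arctan, hs]
    field_simp
  generalize arctan (z.im / z.re) = φ at hc hs'
  rw [Complex.exp_mul_I, ← Complex.ofReal_cos, ← Complex.ofReal_sin]
  apply Complex.ext
  · rw [Complex.re_ofReal_mul, Complex.add_re, Complex.ofReal_re, Complex.re_ofReal_mul,
      Complex.I_re, mul_zero, add_zero, hc]
  · rw [Complex.im_ofReal_mul, Complex.add_im, Complex.ofReal_im, Complex.im_ofReal_mul,
      Complex.I_im, mul_one, zero_add, hs']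

lemma lift_right {z : ℂ} (h : 0 < z.re) {r ψ : ℝ} (hr : 0 < r)
    (hz : z = r * Complex.exp (ψ * Complex.I)) :
    ∃ m : ℤ, ψ = arctan (z.im / z.re) + 2 * π * m := by
  have hz0 : z ≠ 0 := by
    rintro rfl
    simp at h
  have hnorm : ‖z‖ = r := by
    rw [hz, norm_mul, Complex.norm_exp_ofReal_mul_I, Complex.norm_real, Real.norm_eq_abs,
      abs_of_pos hr, mul_one]
  have h1 := polar_right h
  rw [hnorm] at h1
  generalize arctan (z.im / z.re) = φ at h1
  have h2 : Complex.exp (ψ * Complex.I) = Complex.exp ((φ : ℝ) * Complex.I) := by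
    have hr' : (r : ℂ) ≠ 0 := by exact_mod_cast hr.ne'
    have h3 : (r : ℂ) * Complex.exp (ψ * Complex.I) = r * Complex.exp ((φ : ℝ) * Complex.I) := by
      rw [← hz]; exact h1
    exact mul_left_cancel₀ hr' h3
  rw [Complex.exp_eq_exp_iff_exists_int] at h2
  obtain ⟨m, hm⟩ := h2
  refine ⟨m, ?_⟩
  have h4 : ((ψ : ℂ) * Complex.I).im = ((φ : ℂ) * Complex.I + m * (2 * π * Complex.I)).im := by rw [hm]
  simp at h4
  linarith

/-- polar form of a vector pointing to the left -/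
lemma polar_left {z : ℂ} (h : z.re < 0) :
    z = (‖z‖ : ℝ) * Complex.exp (((arctan (z.im / z.re) + π : ℝ) : ℂ) * Complex.I) := by
  have h1 := polar_right (z := -z) (by simpa using h)
  rw [norm_neg, Complex.neg_im, Complex.neg_re, neg_div_neg_eq] at h1
  generalize arctan (z.im / z.re) = φ at h1 ⊢
  have h2 : z = -((‖z‖ : ℝ) * Complex.exp ((φ : ℝ) * Complex.I)) := by
    rw [← h1]; ring
  have h3 : Complex.exp (((φ + π : ℝ) : ℂ) * Complex.I) = -Complex.exp ((φ : ℝ) * Complex.I) := by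
    rw [Complex.ofReal_add, add_mul, Complex.exp_add, Complex.exp_pi_mul_I]
    ring
  rw [h3, mul_neg]
  exact h2

lemma lift_left {z : ℂ} (h : z.re < 0) {r ψ : ℝ} (hr : 0 < r)
    (hz : z = r * Complex.exp (ψ * Complex.I)) :
    ∃ m : ℤ, ψ = arctan (z.im / z.re) + π + 2 * π * m := by
  have h1 : -z = r * Complex.exp (((ψ - π : ℝ) : ℂ) * Complex.I) := by
    have h3 : Complex.exp (((ψ - π : ℝ) : ℂ) * Complex.I) = -Complex.exp (ψ * Complex.I) := by
      rw [Complex.ofReal_sub, sub_mul, Complex.exp_sub, Complex.exp_pi_mul_I]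
      ring
    rw [h3, hz]
    ring
  obtain ⟨m, hm⟩ := lift_right (z := -z) (by simpa using h) hr h1
  rw [Complex.neg_im, Complex.neg_re, neg_div_neg_eq] at hm
  exact ⟨m, by linarith⟩

/-- `InCone k a j φ` : the angle `φ` is in the `j`-th cone -/
def InCone (k : ℕ) (a : ℝ) (j : ℤ) (φ : ℝ) : Prop :=
  a + j * coneAngle k ≤ φ ∧ φ < a + (j + 1) * coneAngle k

lemma inCone_shift {k : ℕ} (hk : 2 ≤ k) {a φ : ℝ} {j m : ℤ} (h : InCone k a j (φ + 2 * π * m)) :
    InCone k a (j - k * m) φ := by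
  have h1 := coneAngle_mul hk
  have h2 : (k : ℝ) * coneAngle k * m = 2 * π * m := by rw [h1]
  unfold InCone at *
  push_cast
  constructor <;> nlinarith [h.1, h.2]

lemma same_of_right {k : ℕ} {a : ℝ} {z z' : ℂ} (h : 0 < z.re) (h' : 0 < z'.re) {j : ℤ}
    (hj : InCone k a j (arctan (z.im / z.re))) (hj' : InCone k a j (arctan (z'.im / z'.re))) :
    SameCone k a z z' := by
  have hz : z ≠ 0 := by rintro rfl; simp at h
  have hz' : z' ≠ 0 := by rintro rfl; simp at h'
  exact ⟨j, ‖z‖, _, ‖z'‖, _, norm_pos_iff.2 hz, hj.1, hj.2, polar_right h, norm_pos_iff.2 hz',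
    hj'.1, hj'.2, polar_right h'⟩

lemma same_of_left {k : ℕ} {a : ℝ} {z z' : ℂ} (h : z.re < 0) (h' : z'.re < 0) {j : ℤ}
    (hj : InCone k a j (arctan (z.im / z.re) + π)) (hj' : InCone k a j (arctan (z'.im / z'.re) + π)) :
    SameCone k a z z' := by
  have hz : z ≠ 0 := by rintro rfl; simp at h
  have hz' : z' ≠ 0 := by rintro rfl; simp at h'
  exact ⟨j, ‖z‖, _, ‖z'‖, _, norm_pos_iff.2 hz, hj.1, hj.2, polar_left h, norm_pos_iff.2 hz',
    hj'.1, hj'.2, polar_left h'⟩

lemma two_pi_int {x y : ℤ} (h : |2 * π * x - 2 * π * y| < 2 * π) : x = y := by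
  have hp := Real.pi_pos
  have h1 : |((x - y : ℤ) : ℝ)| < 1 := by
    have : 2 * π * x - 2 * π * y = 2 * π * ((x - y : ℤ) : ℝ) := by push_cast; ring
    rw [this, abs_mul, abs_of_pos (by positivity)] at h
    by_contra hc
    push Not at hc
    nlinarith
  have h2 : |(x - y : ℤ)| < 1 := by
    have : ((|(x - y : ℤ)| : ℤ) : ℝ) < ((1 : ℤ) : ℝ) := by
      rw [Int.cast_abs]; simpa using h1
    exact_mod_cast this
  rw [Int.abs_lt_one_iff] at h2
  omega

/-- two vectors to the right in the same cone -/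
lemma right_of_same {k : ℕ} (hk : 2 ≤ k) {a : ℝ} {z z' : ℂ} (h : 0 < z.re) (h' : 0 < z'.re)
    (hs : SameCone k a z z') :
    ∃ j : ℤ, InCone k a j (arctan (z.im / z.re)) ∧ InCone k a j (arctan (z'.im / z'.re)) := by
  obtain ⟨j, r, ψ, r', ψ', hr, h1, h2, h3, hr', h1', h2', h3'⟩ := hs
  obtain ⟨m, hm⟩ := lift_right h hr h3
  obtain ⟨m', hm'⟩ := lift_right h' hr' h3'
  have b1 := Real.arctan_lt_pi_div_two (z.im / z.re)
  have b2 := Real.neg_pi_div_two_lt_arctan (z.im / z.re)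
  have b3 := Real.arctan_lt_pi_div_two (z'.im / z'.re)
  have b4 := Real.neg_pi_div_two_lt_arctan (z'.im / z'.re)
  have hc := coneAngle_le hk
  have hmm : m = m' := by
    apply two_pi_int
    rw [abs_lt]
    constructor <;> nlinarith
  subst hmm
  refine ⟨j - k * m, inCone_shift hk ?_, inCone_shift hk ?_⟩
  · rw [← hm]; exact ⟨h1, h2⟩
  · rw [← hm']; exact ⟨h1', h2'⟩

/-- two vectors to the left in the same cone -/
lemma left_of_same {k : ℕ} (hk : 2 ≤ k) {a : ℝ} {z z' : ℂ} (h : z.re < 0) (h' : z'.re < 0)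
    (hs : SameCone k a z z') :
    ∃ j : ℤ, InCone k a j (arctan (z.im / z.re) + π) ∧ InCone k a j (arctan (z'.im / z'.re) + π) := by
  obtain ⟨j, r, ψ, r', ψ', hr, h1, h2, h3, hr', h1', h2', h3'⟩ := hs
  obtain ⟨m, hm⟩ := lift_left h hr h3
  obtain ⟨m', hm'⟩ := lift_left h' hr' h3'
  have b1 := Real.arctan_lt_pi_div_two (z.im / z.re)
  have b2 := Real.neg_pi_div_two_lt_arctan (z.im / z.re)
  have b3 := Real.arctan_lt_pi_div_two (z'.im / z'.re)
  have b4 := Real.neg_pi_div_two_lt_arctan (z'.im / z'.re)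
  have hc := coneAngle_le hk
  have hmm : m = m' := by
    apply two_pi_int
    rw [abs_lt]
    constructor <;> nlinarith
  subst hmm
  refine ⟨j - k * m, inCone_shift hk ?_, inCone_shift hk ?_⟩
  · rw [← hm]; exact ⟨h1, h2⟩
  · rw [← hm']; exact ⟨h1', h2'⟩

/-- the rays of orientation `a` avoid the line direction `φ₀` by the margin `μ` -/
def Avoid (k : ℕ) (a φ₀ μ : ℝ) : Prop :=
  ∀ j : ℤ, μ ≤ |a + j * coneAngle k - φ₀| ∧ μ ≤ |a + j * coneAngle k - (φ₀ + π)|

/-- close angles are in the same cone -/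
lemma Avoid.close {k : ℕ} (hk : 2 ≤ k) {a φ₀ μ ν φ φ' : ℝ}
    (h : ∀ j : ℤ, μ ≤ |a + j * coneAngle k - φ₀|) (hν : ν < μ)
    (h1 : |φ - φ₀| ≤ ν) (h2 : |φ' - φ₀| ≤ ν) : ∃ j : ℤ, InCone k a j φ ∧ InCone k a j φ' := by
  have hc := coneAngle_pos hk
  refine ⟨⌊(φ - a) / coneAngle k⌋, ?_⟩
  set j := ⌊(φ - a) / coneAngle k⌋ with hj
  have e1 : (j : ℝ) * coneAngle k ≤ φ - a := by
    have := Int.floor_le ((φ - a) / coneAngle k)
    rw [← hj, le_div_iff₀ hc] at this
    exact this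
  have e2 : φ - a < (j + 1) * coneAngle k := by
    have := Int.lt_floor_add_one ((φ - a) / coneAngle k)
    rw [← hj, div_lt_iff₀ hc] at this
    exact this
  rw [abs_le] at h1 h2
  have a1 := h j
  have a2 := h (j + 1)
  push_cast at a2
  have f1 : a + j * coneAngle k ≤ φ₀ - μ := by
    rcases le_abs'.1 a1 with h3 | h3
    · linarith
    · exfalso; linarith
  have f2 : φ₀ + μ ≤ a + (j + 1) * coneAngle k := by
    rcases le_abs'.1 a2 with h3 | h3
    · exfalso; linarith
    · linarith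
  refine ⟨⟨by linarith, by linarith⟩, ⟨by linarith, by linarith⟩⟩

/-- opposite directions are never in the same cone -/
lemma Avoid.opposite {k : ℕ} (hk : 2 ≤ k) {a φ₀ μ ν : ℝ} {z z' : ℂ} (hμ : 0 < μ)
    (h : Avoid k a φ₀ μ) (hν : ν < μ) (hz : 0 < z.re) (hz' : z'.re < 0)
    (h1 : |arctan (z.im / z.re) - φ₀| ≤ ν) (h2 : |arctan (z'.im / z'.re) - φ₀| ≤ ν) :
    ¬ SameCone k a z z' := by
  rintro ⟨j, r, ψ, r', ψ', hr, g1, g2, g3, hr', g1', g2', g3'⟩
  obtain ⟨m, hm⟩ := lift_right hz hr g3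
  obtain ⟨m', hm'⟩ := lift_left hz' hr' g3'
  have hc := coneAngle_le hk
  have hc0 := coneAngle_pos hk
  have hkk := coneAngle_mul hk
  rw [abs_le] at h1 h2
  rw [hm] at g1 g2
  rw [hm'] at g1' g2'
  have i1 := inCone_shift hk (a := a) (j := j) (m := m) (φ := arctan (z.im / z.re)) ⟨g1, g2⟩
  have i2 := inCone_shift hk (a := a) (j := j) (m := m') (φ := arctan (z'.im / z'.re) + π) ⟨g1', g2'⟩
  have a1 := (h (j - k * m)).1
  have a2 := (h (j - k * m + 1)).1
  have a3 := (h (j - k * m')).2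
  have a4 := (h (j - k * m' + 1)).2
  obtain ⟨b1, b2⟩ := i1
  obtain ⟨b3, b4⟩ := i2
  push_cast at a1 a2 a3 a4 b1 b2 b3 b4
  have f1 : a + (j - k * m) * coneAngle k ≤ φ₀ - μ := by
    rcases le_abs'.1 a1 with h3 | h3
    · linarith
    · exfalso; linarith
  have f2 : φ₀ + μ ≤ a + (j - k * m + 1) * coneAngle k := by
    rcases le_abs'.1 a2 with h3 | h3
    · exfalso; linarith
    · linarith
  have f3 : a + (j - k * m') * coneAngle k ≤ φ₀ + π - μ := by
    rcases le_abs'.1 a3 with h3 | h3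
    · linarith
    · exfalso; linarith
  have f4 : φ₀ + π + μ ≤ a + (j - k * m' + 1) * coneAngle k := by
    rcases le_abs'.1 a4 with h3 | h3
    · exfalso; linarith
    · linarith
  -- difference is a multiple of 2π strictly between 0 and 2π
  have key : (a + ((j : ℝ) - k * m') * coneAngle k) - (a + (j - k * m) * coneAngle k) =
      2 * π * (m - m') := by
    rw [← hkk]; ring
  have hp := Real.pi_pos
  generalize coneAngle k = θ at *
  clear g1 g2 g1' g2' hm hm' g3 g3' a1 a2 a3 a4 hkk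
  have s1 : a + ((j : ℝ) - k * m) * θ + θ = a + (j - k * m + 1) * θ := by ring
  have s2 : a + ((j : ℝ) - k * m') * θ + θ = a + (j - k * m' + 1) * θ := by ring
  have u1 : 0 < 2 * π * ((m : ℝ) - m') := by
    rw [← key]
    linarith
  have u2 : 2 * π * ((m : ℝ) - m') < 2 * π := by
    rw [← key]
    linarith
  have v1 : (0 : ℝ) < (m : ℝ) - m' := (mul_pos_iff_of_pos_left (by positivity)).1 u1
  have v2 : (m : ℝ) - m' < 1 := by
    have : 2 * π * ((m : ℝ) - m') < 2 * π * 1 := by linarith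
    exact lt_of_mul_lt_mul_left this (by positivity)
  have w1 : (0 : ℤ) < m - m' := by exact_mod_cast v1
  have w2 : m - m' < (1 : ℤ) := by exact_mod_cast v2
  omega

/-- an orientation which avoids a direction modulo half a cone angle -/
lemma avoid_of_half {k : ℕ} (hk : 2 ≤ k) {φ₀ o μ : ℝ}
    (h : ∀ m : ℤ, μ ≤ |o - φ₀ + m * (coneAngle k / 2)|) : Avoid k o φ₀ μ := by
  have hkk := coneAngle_mul hk
  intro j
  constructor
  · have := h (2 * j)
    push_cast at this
    rwa [show o - φ₀ + 2 * (j : ℝ) * (coneAngle k / 2) = o + j * coneAngle k - φ₀ by ring] at this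
  · have := h (2 * j - k)
    push_cast at this
    rwa [show o - φ₀ + (2 * (j : ℝ) - k) * (coneAngle k / 2) = o + j * coneAngle k - (φ₀ + π) by
      linarith] at this

/-- the window `(φ, φ + ε)` lies in the window of length `33 b` above `a` -/
def InW (a b φ ε : ℝ) : Prop := a ≤ φ ∧ φ + ε ≤ a + 33 * b

/-- one of two close orientations is good -/
lemma exists_avoid {k : ℕ} (hk : 2 ≤ k) {b : ℝ} (hb : 0 < b) (hbk : 128 * b ≤ coneAngle k)
    (φ₀ a : ℝ) :
    ∃ a', (a' = a ∨ a' = a + 32 * b) ∧ ∀ o, a' ≤ o → o ≤ a' + b → Avoid k o φ₀ (8 * b) := by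
  by_cases h : ∀ m : ℤ, 9 * b ≤ |a - φ₀ + m * (coneAngle k / 2)|
  · refine ⟨a, Or.inl rfl, fun o h1 h2 => avoid_of_half hk fun m => ?_⟩
    have h3 := h m
    have h4 : |a - φ₀ + m * (coneAngle k / 2)| ≤
        |o - φ₀ + m * (coneAngle k / 2)| + |a - o| := by
      have := abs_add_le (o - φ₀ + m * (coneAngle k / 2)) (a - o)
      rwa [show o - φ₀ + m * (coneAngle k / 2) + (a - o) = a - φ₀ + m * (coneAngle k / 2) by
        ring] at this
    have h5 : |a - o| ≤ b := by
      rw [abs_le]; constructor <;> linarith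
    linarith
  · push Not at h
    obtain ⟨m₀, hm₀⟩ := h
    rw [abs_lt] at hm₀
    refine ⟨a + 32 * b, Or.inr rfl, fun o h1 h2 => avoid_of_half hk fun m => ?_⟩
    have e : o - φ₀ + m * (coneAngle k / 2) =
        (a - φ₀ + m₀ * (coneAngle k / 2)) + (o - a) + ((m : ℝ) - m₀) * (coneAngle k / 2) := by ring
    rcases lt_trichotomy m m₀ with hm | hm | hm
    · have h3 : ((m : ℝ) - m₀) ≤ -1 := by
        have : m + 1 ≤ m₀ := by omega
        have : ((m : ℝ) + 1) ≤ m₀ := by exact_mod_cast this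
        linarith
      have h4 : ((m : ℝ) - m₀) * (coneAngle k / 2) ≤ -1 * (64 * b) := by
        have : ((m : ℝ) - m₀) * (coneAngle k / 2) ≤ -1 * (coneAngle k / 2) :=
          mul_le_mul_of_nonneg_right h3 (by linarith)
        linarith
      rw [e, abs_of_nonpos (by linarith)]
      linarith
    · subst hm
      rw [e, sub_self, zero_mul, abs_of_nonneg (by linarith)]
      linarith
    · have h3 : (1 : ℝ) ≤ ((m : ℝ) - m₀) := by
        have : m₀ + 1 ≤ m := by omega
        have : ((m₀ : ℝ) + 1) ≤ m := by exact_mod_cast this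
        linarith
      have h4 : 1 * (64 * b) ≤ ((m : ℝ) - m₀) * (coneAngle k / 2) := by
        have : 1 * (coneAngle k / 2) ≤ ((m : ℝ) - m₀) * (coneAngle k / 2) :=
          mul_le_mul_of_nonneg_right h3 (by linarith)
        linarith
      rw [e, abs_of_nonneg (by linarith)]
      linarith

end Pool.Agent.Lib.Helper10.YY3
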