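import Pool.Agent.Lib.Helper10.YY3.Y10

namespace Pool.Agent.Lib.Helper10.YY3

open Real

/-- flavour of a tooth -/
def fl (i : ℕ) : Bool := decide ((i / 2) % 2 = 1)

lemma fl_two (i : ℕ) : fl (i + 2) = !fl i := by
  unfold fl
  rcases Nat.mod_two_eq_zero_or_one (i / 2) with h | h
  · simp [h]
    omega
  · simp [h]
    omega

/-- mirror image -/
abbrev mi (q : ℝ × ℝ) : ℝ × ℝ := (1 - q.1, q.2)

/-- data of a level -/
structure LevData (k : ℕ) (a : ℝ) (b lam : ℝ) (N0 : ℕ) (P : Set (ℝ × ℝ × ℝ) → Prop) (S : ℝ)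
    (C : Bool → Set (ℝ × ℝ × ℝ)) (ε : ℝ) : Prop where
  e0 : 0 < ε
  ek : ε ≤ b
  geo : ∀ f, Geo lam b (C f)
  long : ∀ f, P (C f)
  ok : ∀ N, N0 ≤ N → N % 2 = 0 → ∀ s, |s| ≤ S → ∀ p ∈ Zig lam b N (fun i => C (fl i)),
    ∃ φ, InW a b φ ε ∧
      ∀ o, φ < o → o < φ + ε → OKv k b (Zig lam b N (fun i => C (fl i))) s o p

/-- level statement -/
def Lev (k : ℕ) (a : ℝ) (b lam : ℝ) (N0 : ℕ) (P : Set (ℝ × ℝ × ℝ) → Prop) : Prop :=
  ∀ S : ℝ, 0 ≤ S → ∃ (C : Bool → Set (ℝ × ℝ × ℝ)) (ε : ℝ), LevData k a b lam N0 P S C ε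

section

variable {lam b : ℝ} {k : ℕ}

lemma zh_of {N0 : ℕ} (hb : 0 < b) (hb1 : b ≤ 1 / 8) (hl : 0 < lam) (hl1 : lam ≤ 1 / 4)
    (hN0 : 0 < N0) (hN0' : 1 / N0 ≤ lam ^ 2 / 8) {C : ℕ → Set (ℝ × ℝ × ℝ)} {N : ℕ}
    (hN : N0 ≤ N) (hev : N % 2 = 0) (hC : ∀ i, Geo lam b (C i)) : ZH lam b N C where
  b0 := hb
  b1 := hb1
  l0 := hl
  l1 := hl1
  N0 := by omega
  ev := hev
  hs := by
    unfold hh
    have h1 : (0 : ℝ) < N0 := by exact_mod_cast hN0
    have h2 : (N0 : ℝ) ≤ N := by exact_mod_cast hN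
    have h3 : (1 - 2 * lam) / (N : ℝ) ≤ 1 / N0 := by
      apply div_le_div₀ zero_le_one (by linarith) h1 h2
    linarith
  geo := fun i _ => hC i

/-- nodes of a zigzag form a node set -/
lemma ZH.nodeSet {N : ℕ} {C : ℕ → Set (ℝ × ℝ × ℝ)} (H : ZH lam b N C) :
    NodeSet b (Zig lam b N C) {q | IsNode lam b N q} where
  sub := fun q hq => IsNode.mem hq
  slope := fun q hq x hx => H.slope_node hq hx
  lab := by
    intro q hq
    rcases hq with h | h | ⟨i, hi, rfl⟩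
    · exact Or.inl h
    · exact Or.inr (Or.inl h)
    · exact Or.inr (Or.inr (Or.inl ⟨i, hi, rfl⟩))

/-- orientation window of a node -/
lemma ZH.node_window {N : ℕ} {C : ℕ → Set (ℝ × ℝ × ℝ)} (H : ZH lam b N C) (hk : 2 ≤ k)
    (hbk : 128 * b ≤ coneAngle k) (a : ℝ) {s ε : ℝ} {i : ℕ} (hi : i ≤ N)
    (hε : ε ≤ b) :
    ∃ φ, InW a b φ ε ∧ ∀ o, φ < o → o < φ + ε →
      OKv k b (Zig lam b N C) s o ((nd lam b N i).1, (nd lam b N i).2, 0) := by
  have hb := H.b0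
  obtain ⟨a', h0, h⟩ := exists_avoid hk hb hbk (arctan (s + 0)) a
  refine ⟨a', ?_, fun o h1 h2 => ?_⟩
  · rcases h0 with rfl | rfl
    · exact ⟨le_rfl, by linarith⟩
    · exact ⟨by linarith, by linarith⟩
  · exact H.ok_node hk hbk hi (h o h1.le (by linarith))

/-- level zero -/
lemma lev_zero {N0 : ℕ} {P : Set (ℝ × ℝ × ℝ) → Prop} (hk : 2 ≤ k) (hbk : 128 * b ≤ coneAngle k)
    (hb : 0 < b) (hb1 : b ≤ 1 / 8) (hl : 0 < lam) (hl1 : lam ≤ 1 / 4)
    (hN0 : 0 < N0) (hN0' : 1 / N0 ≤ lam ^ 2 / 8) (hP : P ∅) (a : ℝ) :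
    Lev k a b lam N0 P := by
  intro S hS
  refine ⟨fun _ => ∅, b, hb, le_rfl, fun _ => geo_empty _ _, fun _ => hP, ?_⟩
  · intro N hN hev s hs p hp
    have H : ZH lam b N (fun _ => (∅ : Set (ℝ × ℝ × ℝ))) :=
      zh_of hb hb1 hl hl1 hN0 hN0' hN hev (fun _ => geo_empty _ _)
    rcases hp with ⟨i, hi, rfl⟩ | ⟨i, hi, p, hp, rfl⟩
    · exact H.node_window hk hbk a hi le_rfl
    · exact absurd hp (Set.notMem_empty _)

/-- a large even number of teeth -/
lemma exists_even (N0 : ℕ) {c : ℝ} (hc : 0 < c) (hN0 : 0 < N0) (hl : 0 ≤ lam) :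
    ∃ N, N0 ≤ N ∧ N % 2 = 0 ∧ hh lam N ≤ c := by
  obtain ⟨n, hn⟩ := exists_nat_gt (1 / c)
  refine ⟨2 * (n + N0), by omega, by omega, ?_⟩
  unfold hh
  have h1 : (0 : ℝ) < ((2 * (n + N0) : ℕ) : ℝ) := by
    have : 0 < 2 * (n + N0) := by omega
    exact_mod_cast this
  rw [div_le_iff₀ h1]
  have h2 : (n : ℝ) ≤ ((2 * (n + N0) : ℕ) : ℝ) := by
    have : n ≤ 2 * (n + N0) := by omega
    exact_mod_cast this
  have h3 : 1 < n * c := by
    rw [div_lt_iff₀ hc] at hn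
    exact hn
  nlinarith

/-- refinement with respect to a right neighbour -/
lemma ZH.refR {N : ℕ} {C : ℕ → Set (ℝ × ℝ × ℝ)} (H : ZH lam b N C) (hk : 2 ≤ k)
    (hbk : 128 * b ≤ coneAngle k) {s S ε e X Y : ℝ}
    (hT : Tgt b lam (hh lam N) (pt (Zig lam b N C)) {q | IsNode lam b N q})
    (he : e = 1 ∨ e = -1) (hX : lam ≤ X ∧ X ≤ 1 - lam) (hY : 0 ≤ Y ∧ Y ≤ b * lam ^ 2 / 8)
    (hε : 0 < ε) (hεk : ε ≤ coneAngle k / 4) (hd : 40 * b * hh lam N / lam ^ 2 ≤ ε / 3)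
    (hs : |s| ≤ S) (φ : ℝ) :
    ∃ φ', φ ≤ φ' ∧ φ' + newEps b lam (hh lam N) S ε ≤ φ + ε ∧
      ∀ o, φ' < o → o < φ' + newEps b lam (hh lam N) S ε →
        AimR k b s o e X Y (Zig lam b N C) {q | IsNode lam b N q} := by
  have hb := H.b0
  have hl := H.l0
  have hl1 := H.l1
  have hhl := H.hl
  have hs' := H.hs
  have hbl := mul_pos hb hl
  have hb1 := H.b1
  have h1 : b * lam ^ 2 ≤ b * lam / 4 := by nlinarith
  have h2 : b * lam ≤ b * (1 - X) := mul_le_mul_of_nonneg_left (by linarith) hb.le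
  have h3 : b * hh lam N ≤ b * (lam ^ 2 / 8) := mul_le_mul_of_nonneg_left hs' hb.le
  have h4 : b * (1 - X) ≤ b := by nlinarith
  have hlb : b * lam ≤ b / 4 := by nlinarith
  apply refine_gen hk hbk hb hl hl1 H.h0 (by linarith) hT he he (by linarith) (by linarith) _ _
    hε hεk hd hs φ
  · rcases he with rfl | rfl <;> linarith
  · rcases he with rfl | rfl <;> linarith

/-- refinement with respect to a left neighbour -/
lemma ZH.refL {N : ℕ} {C : ℕ → Set (ℝ × ℝ × ℝ)} (H : ZH lam b N C) (hk : 2 ≤ k)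
    (hbk : 128 * b ≤ coneAngle k) {s S ε e X Y : ℝ}
    (hT : Tgt b lam (hh lam N) (mi '' pt (Zig lam b N C)) (mi '' {q | IsNode lam b N q}))
    (he : e = 1 ∨ e = -1) (hX : lam ≤ X ∧ X ≤ 1 - lam) (hY : 0 ≤ Y ∧ Y ≤ b * lam ^ 2 / 8)
    (hε : 0 < ε) (hεk : ε ≤ coneAngle k / 4) (hd : 40 * b * hh lam N / lam ^ 2 ≤ ε / 3)
    (hs : |s| ≤ S) (φ : ℝ) :
    ∃ φ', φ ≤ φ' ∧ φ' + newEps b lam (hh lam N) S ε ≤ φ + ε ∧
      ∀ o, φ' < o → o < φ' + newEps b lam (hh lam N) S ε →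
        AimL k b s o e X Y (Zig lam b N C) {q | IsNode lam b N q} := by
  have hb := H.b0
  have hl := H.l0
  have hl1 := H.l1
  have hhl := H.hl
  have hs' := H.hs
  have hbl := mul_pos hb hl
  have hb1 := H.b1
  have h1 : b * lam ^ 2 ≤ b * lam / 4 := by nlinarith
  have h2 : b * lam ≤ b * X := mul_le_mul_of_nonneg_left (by linarith) hb.le
  have h3 : b * hh lam N ≤ b * (lam ^ 2 / 8) := mul_le_mul_of_nonneg_left hs' hb.le
  have h4 : b * X ≤ b := by nlinarith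
  have hlb : b * lam ≤ b / 4 := by nlinarith
  have he' : -e = 1 ∨ -e = -1 := by rcases he with rfl | rfl <;> norm_num
  apply refine_gen hk hbk hb hl hl1 H.h0 (by linarith) hT he' he (by linarith) (by linarith) _ _
    hε hεk hd hs φ
  · rcases he with rfl | rfl <;> linarith
  · rcases he with rfl | rfl <;> linarith

/-- the level step -/
theorem lev_step {N0 : ℕ} {P P' : Set (ℝ × ℝ × ℝ) → Prop} (hk : 2 ≤ k)
    (hbk : 128 * b ≤ coneAngle k) (hb : 0 < b) (hb1 : b ≤ 1 / 8) (hl : 0 < lam)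
    (hl1 : lam ≤ 1 / 4) (hN0 : 0 < N0) (hN0' : 1 / N0 ≤ lam ^ 2 / 8)
    (hT : ∀ (N : ℕ) (C : ℕ → Set (ℝ × ℝ × ℝ)), ZH lam b N C →
      Tgt b lam (hh lam N) (pt (Zig lam b N C)) {q | IsNode lam b N q})
    (hT' : ∀ (N : ℕ) (C : ℕ → Set (ℝ × ℝ × ℝ)), ZH lam b N C →
      Tgt b lam (hh lam N) (mi '' pt (Zig lam b N C)) (mi '' {q | IsNode lam b N q}))
    (hP : ∀ (N : ℕ) (C : ℕ → Set (ℝ × ℝ × ℝ)), ZH lam b N C → (∀ i < N, P (C i)) →
      P' (Zig lam b N C))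
    {a : ℝ} (h : Lev k a b lam N0 P) : Lev k a b lam N0 P' := by
  intro S hS
  have hc0 := coneAngle_pos hk
  obtain ⟨C, ε, hL⟩ := h (S + b) (by linarith)
  have hZ : ∀ N, N0 ≤ N → N % 2 = 0 → ZH lam b N (fun i => C (fl i)) := fun N h1 h2 =>
    zh_of hb hb1 hl hl1 hN0 hN0' h1 h2 (fun i => hL.geo _)
  -- the two scales
  obtain ⟨N1, hN1, hev1, hh1⟩ := exists_even (lam := lam) N0 (c := ε / 3 * lam ^ 2 / (40 * b))
    (by have := hL.e0; positivity) hN0 hl.le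
  have H1 := hZ N1 hN1 hev1
  set ε1 := newEps b lam (hh lam N1) S ε with hε1
  have hε1pos : 0 < ε1 := newEps_pos hb hl H1.h0 hL.e0
  have hε1le : ε1 ≤ ε / 3 := newEps_le _ _ _ _ _
  obtain ⟨N2, hN2, hev2, hh2⟩ := exists_even (lam := lam) N0 (c := ε1 / 3 * lam ^ 2 / (40 * b))
    (by positivity) hN0 hl.le
  have H2 := hZ N2 hN2 hev2
  set ε2 := newEps b lam (hh lam N2) S ε1 with hε2
  have hε2pos : 0 < ε2 := newEps_pos hb hl H2.h0 hε1pos
  have hε2le : ε2 ≤ ε1 / 3 := newEps_le _ _ _ _ _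
  have hd1 : 40 * b * hh lam N1 / lam ^ 2 ≤ ε / 3 := by
    rw [div_le_iff₀ (by positivity)]
    rw [le_div_iff₀ (by positivity)] at hh1
    linarith
  have hd2 : 40 * b * hh lam N2 / lam ^ 2 ≤ ε1 / 3 := by
    rw [div_le_iff₀ (by positivity)]
    rw [le_div_iff₀ (by positivity)] at hh2
    linarith
  have hek : ε ≤ coneAngle k / 4 := by have := hL.ek; linarith
  have hek' := hL.ek
  have he0 := hL.e0
  set M : Bool → ℕ := fun f => if f then N1 else N2 with hM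
  set D : Bool → Set (ℝ × ℝ × ℝ) := fun f => Zig lam b (M f) (fun i => C (fl i)) with hD
  have hMf : ∀ f, N0 ≤ M f ∧ M f % 2 = 0 := by
    intro f
    cases f
    · exact ⟨hN2, hev2⟩
    · exact ⟨hN1, hev1⟩
  have HM : ∀ f, ZH lam b (M f) (fun i => C (fl i)) := fun f => hZ _ (hMf f).1 (hMf f).2
  have hgeoD : ∀ f, Geo lam b (D f) := fun f => (HM f).geo_zig
  refine ⟨D, ε2, hε2pos, by linarith, hgeoD, fun f => ?_, ?_⟩
  · exact hP _ _ (HM f) (fun i _ => hL.long _)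
  intro N hN hev s hs p hp
  have H : ZH lam b N (fun i => D (fl i)) :=
    zh_of hb hb1 hl hl1 hN0 hN0' hN hev (fun i => hgeoD _)
  rcases hp with ⟨i, hi, rfl⟩ | ⟨j, hj, p, hp, rfl⟩
  · exact H.node_window hk hbk a hi (by linarith)
  · have hsj : |s + sg j * b| ≤ S + b := by
      have h1 : |sg j * b| = b := by rw [abs_mul, sg_abs, one_mul, abs_of_pos hb]
      calc |s + sg j * b| ≤ |s| + |sg j * b| := abs_add_le _ _
        _ ≤ S + b := by rw [h1]; linarith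
    obtain ⟨φ0, hW0, hφ0⟩ := hL.ok (M (fl j)) (hMf _).1 (hMf _).2 _ hsj p hp
    have hWW : ∀ φ, φ0 ≤ φ → φ + ε2 ≤ φ0 + ε → InW a b φ ε2 := by
      intro φ h1 h2
      obtain ⟨h3, h4⟩ := hW0
      exact ⟨by linarith, by linarith⟩
    have hbox := (hgeoD (fl j)).box _ hp
    have hX : lam ≤ p.1 ∧ p.1 ≤ 1 - lam := ⟨hbox.1, hbox.2.1⟩
    have hY : 0 ≤ p.2.1 ∧ p.2.1 ≤ b * lam ^ 2 / 8 := hbox.2.2
    have hNd : ∀ i < N, NodeSet b (D (fl i)) {q | IsNode lam b (M (fl i)) q} :=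
      fun i _ => (HM _).nodeSet
    have Htrue : D true = Zig lam b N1 (fun i => C (fl i)) := rfl
    have Hfalse : D false = Zig lam b N2 (fun i => C (fl i)) := rfl
    rcases Bool.eq_false_or_eq_true (fl (j + 1)) with hf | hf
    · -- right neighbour has flavour true, left neighbour has flavour false
      obtain ⟨φ1, a1, a2, a3⟩ := H1.refR hk hbk (hT _ _ H1) (sg_or j) hX hY he0 hek hd1 hs φ0
      obtain ⟨φ2, b1, b2, b3⟩ := H2.refL hk hbk (hT' _ _ H2) (sg_or j) hX hY hε1pos (by linarith)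
        hd2 hs φ1
      refine ⟨φ2, hWW φ2 (by linarith) (by linarith), fun o o1 o2 => ?_⟩
      apply H.ok_int hk hbk hj hp hNd (hφ0 o (by linarith) (by linarith))
      · intro _
        have := a3 o (by linarith) (by linarith)
        rw [hf]
        exact this
      · rintro i rfl
        have h5 : fl i = false := by
          have := fl_two i
          rw [show i + 1 + 1 = i + 2 by ring, this] at hf
          simpa using hf
        have := b3 o (by linarith) (by linarith)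
        rw [h5]
        exact this
    · obtain ⟨φ1, a1, a2, a3⟩ := H1.refL hk hbk (hT' _ _ H1) (sg_or j) hX hY he0 hek hd1 hs φ0
      obtain ⟨φ2, b1, b2, b3⟩ := H2.refR hk hbk (hT _ _ H2) (sg_or j) hX hY hε1pos (by linarith)
        hd2 hs φ1
      refine ⟨φ2, hWW φ2 (by linarith) (by linarith), fun o o1 o2 => ?_⟩
      apply H.ok_int hk hbk hj hp hNd (hφ0 o (by linarith) (by linarith))
      · intro _
        have := b3 o (by linarith) (by linarith)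
        rw [hf]
        exact this
      · rintro i rfl
        have h5 : fl i = true := by
          have := fl_two i
          rw [show i + 1 + 1 = i + 2 by ring, this] at hf
          simpa using hf
        have := a3 o (by linarith) (by linarith)
        rw [h5]
        exact this

end

end Pool.Agent.Lib.Helper10.YY3
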