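import Pool.Agent.Lib.Helper10.YY3.Y11
import Pool.Agent.Lib.Helper10.YY3.G4

namespace Pool.Agent.Lib.Helper10.YY3

open Real

/-- a plane point as a complex number -/
def toC (p : ℝ × ℝ) : ℂ := ⟨p.1, p.2⟩

lemma toC_sub (p q : ℝ × ℝ) : toC q - toC p = dv 0 p q := by
  unfold toC dv
  apply Complex.ext
  · simp
  · simp

lemma toC_inj {p q : ℝ × ℝ} (h : toC p = toC q) : p = q := by
  have h1 := congrArg Complex.re h
  have h2 := congrArg Complex.im h
  exact Prod.ext h1 h2

lemma dist_toC (p q : ℝ × ℝ) : dist (toC p) (toC q) ^ 2 = d2 0 p q := by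
  rw [dist_comm, dist_eq_norm, toC_sub, norm_dv]

lemma d2_le_iff (p q r u : ℝ × ℝ) :
    dist (toC p) (toC q) ≤ dist (toC r) (toC u) ↔ d2 0 p q ≤ d2 0 r u := by
  rw [← dist_toC, ← dist_toC]
  exact (pow_le_pow_iff_left₀ dist_nonneg dist_nonneg two_ne_zero).symm

section kill

variable {k : ℕ} {lam b : ℝ} {Z : Set (ℝ × ℝ × ℝ)} {o : ℂ → ℝ} {Y YY : ℂ → ℂ → Prop}

/-- all surviving edges join consecutive points -/
theorem kill (hk : 2 ≤ k) (hbk : 128 * b ≤ coneAngle k) (hb : 0 < b) (hl : 0 < lam)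
    (G : Geo lam b Z)
    (hs0 : ∀ x ∈ pt Z, |sl (0, 0) x| ≤ 2 * b) (hs1 : ∀ x ∈ pt Z, |sl (1, 0) x| ≤ 2 * b)
    (hO : ∀ p ∈ Z, OKv k b Z 0 (o (toC (p.1, p.2.1))) p)
    (hO0 : Avoid k (o (toC (0, 0))) (arctan (0 + 0)) (8 * b))
    (hO1 : Avoid k (o (toC (1, 0))) (arctan (0 + 0)) (8 * b))
    (hY0 : ∀ u v, Y u v → u ∈ toC '' pt Z ∧ v ∈ toC '' pt Z ∧ u ≠ v)
    (hY1 : ∀ u v, Y u v → ∀ x ∈ toC '' pt Z, x ≠ u → SameCone k (o u) (v - u) (x - u) →
      dist u v ≤ dist u x)
    (hY2 : ∀ u ∈ toC '' pt Z, ∀ v ∈ toC '' pt Z, u ≠ v →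
      ∃ x, Y u x ∧ SameCone k (o u) (v - u) (x - u))
    (hYY : ∀ u v, YY u v → Y u v ∧ ∀ x, Y x v → SameCone k (o v) (u - v) (x - v) →
      dist u v ≤ dist x v)
    {u v : ℂ} (huv : YY u v) :
    ∃ p ∈ pt Z, ∃ q ∈ pt Z, u = toC p ∧ v = toC q ∧ Cons Z p q := by
  obtain ⟨hYuv, hmin⟩ := hYY u v huv
  obtain ⟨⟨p, hp, rfl⟩, ⟨q, hq, rfl⟩, hne⟩ := hY0 u v hYuv
  refine ⟨p, hp, q, hq, rfl, rfl, ?_⟩
  have hpq : p ≠ q := fun h => hne (by rw [h])
  have hpq1 : p.1 ≠ q.1 := fun h => hpq (G.pinj hl hp hq h)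
  have hvis : Vis k Z 0 (o (toC p)) p q := by
    intro x hx hxp hsame
    rw [← d2_le_iff]
    apply hY1 _ _ hYuv _ ⟨x, hx, rfl⟩ (fun h => hxp (toC_inj h))
    rwa [toC_sub, toC_sub]
  by_contra hnc
  -- visibility gives the slope condition at the head
  have hend : ∀ P : ℝ × ℝ, P ∈ pt Z → (∀ x ∈ pt Z, |sl P x| ≤ 2 * b) →
      Avoid k (o (toC P)) (arctan (0 + 0)) (8 * b) → p = P → Cons Z p q := by
    rintro P hP hsP hA rfl
    rcases lt_or_gt_of_ne hpq1 with h1 | h1
    · obtain ⟨u, hu, hcu, h2, h3⟩ := exists_consR G.fin hq h1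
      rcases lt_or_eq_of_le h3 with h4 | h4
      · exfalso
        have hs := same_close_R hk hA (ν := 2 * b) (by linarith) h1 h2
          (by simpa using hsP _ hq) (by simpa using hsP _ hu)
        have h5 := hvis u hu (fun h => hcu.1 (by rw [h])) hs
        have h6 := G.nearR 0 _ hP u hu q hq hcu h2 h4
        linarith
      · rw [← G.pinj hl hu hq h4]; exact hcu
    · obtain ⟨u, hu, hcu, h2, h3⟩ := exists_consL G.fin hq h1
      rcases lt_or_eq_of_le h3 with h4 | h4
      · exfalso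
        have hs := same_close_L hk hA (ν := 2 * b) (by linarith) h1 h2
          (by simpa using hsP _ hq) (by simpa using hsP _ hu)
        have h5 := hvis u hu (fun h => hcu.1 (by rw [h])) hs
        have h6 := G.nearL 0 _ hP u hu q hq hcu h2 h4
        linarith
      · rw [G.pinj hl hq hu h4]; exact hcu
  have hpint : ∃ σ, (p.1, p.2, σ) ∈ Z := by
    rcases hp with h | h | h
    · exact absurd (hend _ (zero_mem _) hs0 hO0 h) hnc
    · exact absurd (hend _ (one_mem _) hs1 hO1 h) hnc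
    · exact h
  obtain ⟨σp, hσp⟩ := hpint
  -- head condition: an avoided direction close to all relevant slopes
  have hhead : ∃ σ, Avoid k (o (toC q)) (arctan (0 + σ)) (8 * b) ∧
      |sl q p - σ| ≤ 3 * b ∧ ∀ u ∈ pt Z, Cons Z q u → |sl q u - σ| ≤ 3 * b := by
    rcases (hO _ hσp).vis q hq (fun h => hpq h.symm) hvis with h | h | h | ⟨τ, h, h'⟩
    · exact absurd h hnc
    · subst h
      refine ⟨0, hO0, ?_, fun u hu _ => ?_⟩
      · have := hs0 _ hp; rw [sub_zero]; linarith
      · have := hs0 _ hu; rw [sub_zero]; linarith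
    · subst h
      refine ⟨0, hO1, ?_, fun u hu _ => ?_⟩
      · have := hs1 _ hp; rw [sub_zero]; linarith
      · have := hs1 _ hu; rw [sub_zero]; linarith
    · refine ⟨τ, (hO _ h).av, ?_, fun u hu hcu => G.lab _ h u hu hcu⟩
      rw [sl_comm]; exact h'
  obtain ⟨σ, hA, hsp, hsu⟩ := hhead
  -- the killer
  have hkill : ∀ u ∈ pt Z, Cons Z q u → (∃ τ, (u.1, u.2, τ) ∈ Z) → u ≠ q →
      SameCone k (o (toC q)) (dv 0 q p) (dv 0 q u) → d2 0 q u < d2 0 q p → False := by
    rintro u hu hcu ⟨τ, hτ⟩ huq hsame hlt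
    have hYu : Y (toC u) (toC q) := by
      obtain ⟨x, hx1, hx2⟩ := hY2 (toC u) ⟨u, hu, rfl⟩ (toC q) ⟨q, hq, rfl⟩
        (fun h => huq (toC_inj h))
      obtain ⟨_, ⟨x, hxm, rfl⟩, hxne⟩ := hY0 _ _ hx1
      have hxu : x ≠ u := fun h => hxne (by rw [h])
      by_cases hxq : x = q
      · rw [← hxq]; exact hx1
      · exfalso
        rw [toC_sub, toC_sub] at hx2
        have h1 := hY1 _ _ hx1 (toC q) ⟨q, hq, rfl⟩ (fun h => huq (toC_inj h).symm)
          (by rw [toC_sub, toC_sub]; exact hx2.symm)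
        rw [d2_le_iff] at h1
        have h2 := (hO _ hτ).cc q hq hcu.symm x hxm hxu hxq hx2
        exact absurd h1 (not_le.2 h2)
    have h1 := hmin _ hYu (by rw [toC_sub, toC_sub]; exact hsame)
    rw [d2_le_iff, d2_comm, d2_comm 0 u] at h1
    linarith
  have hbox := G.box _ hσp
  simp only at hbox
  rcases lt_or_gt_of_ne hpq1 with h1 | h1
  · -- `p` left of `q`
    obtain ⟨u, hu, hcu, h2, h3⟩ := exists_consL G.fin hp h1
    have hup : p.1 < u.1 := by
      rcases lt_or_eq_of_le h3 with h | h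
      · exact h
      · exfalso
        apply hnc
        rw [G.pinj hl hp hu h]
        exact hcu.symm
    apply hkill u hu hcu _ (fun h => by rw [h] at h2; exact lt_irrefl _ h2)
      (same_close_L hk hA (ν := 3 * b) (by linarith) h1 h2 hsp (hsu u hu hcu))
      (G.nearL 0 q hq u hu p hp hcu h2 hup)
    rcases hu with h | h | h
    · exfalso; rw [h] at hup; simp only at hup; linarith
    · exfalso
      have := (G.pbox hb hq hl).2.1
      rw [h] at h2; simp only at h2; linarith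
    · exact h
  · obtain ⟨u, hu, hcu, h2, h3⟩ := exists_consR G.fin hp h1
    have hup : u.1 < p.1 := by
      rcases lt_or_eq_of_le h3 with h | h
      · exact h
      · exfalso
        apply hnc
        rw [← G.pinj hl hu hp h]
        exact hcu.symm
    apply hkill u hu hcu _ (fun h => by rw [h] at h2; exact lt_irrefl _ h2)
      (same_close_R hk hA (ν := 3 * b) (by linarith) h1 h2 hsp (hsu u hu hcu))
      (G.nearR 0 q hq u hu p hp hcu h2 hup)
    rcases hu with h | h | h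
    · exfalso
      have := (G.pbox hb hq hl).1
      rw [h] at h2; simp only at h2; linarith
    · exfalso; rw [h] at hup; simp only at hup; linarith
    · exact h

end kill

/-- Euclidean length of a walk -/
noncomputable def wlen {G : SimpleGraph ℂ} {u v : ℂ} (p : G.Walk u v) : ℝ :=
  (p.darts.map (fun d => dist d.fst d.snd)).sum

/-- walks are long if all edges are -/
lemma walk_long {G : SimpleGraph ℂ} {f : ℂ → ℝ} (h : ∀ u v, G.Adj u v → |f v - f u| ≤ dist u v)
    {u v : ℂ} (p : G.Walk u v) : |f v - f u| ≤ wlen p := by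
  induction p with
  | nil => simp [wlen]
  | @cons u v w hadj p ih =>
    have h1 := h _ _ hadj
    have h2 : wlen (SimpleGraph.Walk.cons hadj p) = dist u v + wlen p := by
      unfold wlen
      rw [SimpleGraph.Walk.darts_cons, List.map_cons, List.sum_cons]
    rw [h2]
    calc |f w - f u| = |(f w - f v) + (f v - f u)| := by congr 1; ring
      _ ≤ |f w - f v| + |f v - f u| := abs_add_le _ _
      _ ≤ dist u v + wlen p := by linarith

end Pool.Agent.Lib.Helper10.YY3
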