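import Pool.Agent.Lib.Helper10.YY3.Y1

/-! Existence of Yao graphs and Yao-Yao graphs (some way of breaking ties). -/

namespace Pool.Agent.Lib.Helper10.YY3

open Real

lemma inCone_unique {k : ℕ} (hk : 2 ≤ k) {a φ : ℝ} {j j' : ℤ} (h : InCone k a j φ)
    (h' : InCone k a j' φ) : j = j' := by
  have hc := coneAngle_pos hk
  obtain ⟨h1, h2⟩ := h
  obtain ⟨h3, h4⟩ := h'
  have e1 : (j : ℝ) * coneAngle k < (j' + 1) * coneAngle k := by linarith
  have e2 : (j' : ℝ) * coneAngle k < (j + 1) * coneAngle k := by linarith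
  have f1 := lt_of_mul_lt_mul_right e1 hc.le
  have f2 := lt_of_mul_lt_mul_right e2 hc.le
  have g1 : j < j' + 1 := by exact_mod_cast f1
  have g2 : j' < j + 1 := by exact_mod_cast f2
  omega

lemma polar_unique {r φ r' φ' : ℝ} (hr : 0 < r) (hr' : 0 < r')
    (h : (r : ℂ) * Complex.exp (φ * Complex.I) = r' * Complex.exp (φ' * Complex.I)) :
    ∃ m : ℤ, φ = φ' + 2 * π * m := by
  have hn := congrArg norm h
  rw [norm_mul, norm_mul, Complex.norm_exp_ofReal_mul_I, Complex.norm_exp_ofReal_mul_I,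
    Complex.norm_real, Complex.norm_real, Real.norm_eq_abs, Real.norm_eq_abs, abs_of_pos hr,
    abs_of_pos hr', mul_one, mul_one] at hn
  subst hn
  have hrc : (r : ℂ) ≠ 0 := by exact_mod_cast hr.ne'
  have h2 := mul_left_cancel₀ hrc h
  rw [Complex.exp_eq_exp_iff_exists_int] at h2
  obtain ⟨m, hm⟩ := h2
  refine ⟨m, ?_⟩
  have h4 : ((φ : ℂ) * Complex.I).im = ((φ' : ℂ) * Complex.I + m * (2 * π * Complex.I)).im := by
    rw [hm]
  simp at h4
  linarith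

lemma sameCone_refl {k : ℕ} (hk : 2 ≤ k) (a : ℝ) {z : ℂ} (hz : z ≠ 0) : SameCone k a z z := by
  have hc := coneAngle_pos hk
  refine ⟨⌊(Complex.arg z - a) / coneAngle k⌋, ‖z‖, Complex.arg z, ‖z‖, Complex.arg z,
    norm_pos_iff.2 hz, ?_, ?_, (Complex.norm_mul_exp_arg_mul_I z).symm, norm_pos_iff.2 hz, ?_, ?_,
    (Complex.norm_mul_exp_arg_mul_I z).symm⟩
  · have := Int.floor_le ((Complex.arg z - a) / coneAngle k)
    rw [le_div_iff₀ hc] at this
    linarith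
  · have := Int.lt_floor_add_one ((Complex.arg z - a) / coneAngle k)
    rw [div_lt_iff₀ hc] at this
    linarith
  · have := Int.floor_le ((Complex.arg z - a) / coneAngle k)
    rw [le_div_iff₀ hc] at this
    linarith
  · have := Int.lt_floor_add_one ((Complex.arg z - a) / coneAngle k)
    rw [div_lt_iff₀ hc] at this
    linarith

lemma sameCone_symm {k : ℕ} {a : ℝ} {z z' : ℂ} (h : SameCone k a z z') : SameCone k a z' z := by
  obtain ⟨j, r, φ, r', φ', h1, h2, h3, h4, h5, h6, h7, h8⟩ := h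
  exact ⟨j, r', φ', r, φ, h5, h6, h7, h8, h1, h2, h3, h4⟩

lemma sameCone_trans {k : ℕ} (hk : 2 ≤ k) {a : ℝ} {z z' z'' : ℂ} (h : SameCone k a z z')
    (h' : SameCone k a z' z'') : SameCone k a z z'' := by
  obtain ⟨j, r, φ, r', φ', h1, h2, h3, h4, h5, h6, h7, h8⟩ := h
  obtain ⟨i, ρ, ψ, ρ', ψ', g1, g2, g3, g4, g5, g6, g7, g8⟩ := h'
  rw [h8] at g4
  obtain ⟨m, hm⟩ := polar_unique h5 g1 g4
  have c1 : InCone k a j (ψ + 2 * π * m) := by rw [← hm]; exact ⟨h6, h7⟩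
  have c2 := inCone_shift hk c1
  have c3 := inCone_unique hk c2 ⟨g2, g3⟩
  have hkk := coneAngle_mul hk
  have hji : (j : ℝ) - k * m = i := by exact_mod_cast c3
  refine ⟨j, r, φ, ρ', ψ' + 2 * π * m, h1, h2, h3, h4, g5, ?_, ?_, ?_⟩
  · have : (j : ℝ) * coneAngle k = i * coneAngle k + 2 * π * m := by
      rw [← hji, ← hkk]; ring
    linarith
  · have : (j : ℝ) * coneAngle k = i * coneAngle k + 2 * π * m := by
      rw [← hji, ← hkk]; ring
    linarith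
  · rw [g8]
    congr 1
    rw [show ((ψ' + 2 * π * m : ℝ) : ℂ) * Complex.I = ψ' * Complex.I + m * (2 * π * Complex.I) by
      push_cast; ring, Complex.exp_add, Complex.exp_int_mul_two_pi_mul_I, mul_one]

/-- an injective rank on the plane, used to break ties -/
lemma exists_rank (P : Finset ℂ) : ∃ ρ : ℂ → ℕ, ∀ x ∈ P, ∀ y ∈ P, ρ x = ρ y → x = y := by
  classical
  refine ⟨fun x => P.toList.idxOf x, fun x hx y hy h => ?_⟩
  exact (List.idxOf_inj (Finset.mem_toList.2 hx)).1 h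

/-- minimal element with respect to length and rank -/
lemma exists_best (Q : Finset ℂ) (hQ : Q.Nonempty) (w : ℂ → ℝ) (ρ : ℂ → ℕ)
    (hρ : ∀ x ∈ Q, ∀ y ∈ Q, ρ x = ρ y → x = y) :
    ∃ x ∈ Q, ∀ y ∈ Q, y ≠ x → w x < w y ∨ (w x = w y ∧ ρ x < ρ y) := by
  obtain ⟨x, hx, hmin⟩ := Finset.exists_min_image Q (fun z => toLex (w z, ρ z)) hQ
  refine ⟨x, hx, fun y hy hne => ?_⟩
  have h := hmin y hy
  rw [Prod.Lex.toLex_le_toLex] at h
  rcases h with h | ⟨h1, h2⟩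
  · exact Or.inl h
  · right
    refine ⟨h1, lt_of_le_of_ne h2 (fun h => hne (hρ y hy x hx h.symm))⟩

/-- Yao graphs and Yao-Yao graphs exist -/
theorem exists_graphs {k : ℕ} (hk : 2 ≤ k) (P : Finset ℂ) (o : ℂ → ℝ) :
    ∃ Y YY : ℂ → ℂ → Prop,
    ((∀ u v, Y u v → u ∈ P ∧ v ∈ P ∧ u ≠ v) ∧
     (∀ u v, Y u v → ∀ x ∈ P, x ≠ u → SameCone k (o u) (v - u) (x - u) → dist u v ≤ dist u x) ∧
     (∀ u ∈ P, ∀ v ∈ P, u ≠ v → ∃! x, Y u x ∧ SameCone k (o u) (v - u) (x - u))) ∧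
    ((∀ u v, YY u v → Y u v) ∧
     (∀ u v, YY u v → ∀ x, Y x v → SameCone k (o v) (u - v) (x - v) → dist u v ≤ dist x v) ∧
     (∀ u v, Y u v → ∃! x, YY x v ∧ SameCone k (o v) (u - v) (x - v))) := by
  classical
  obtain ⟨ρ, hρ⟩ := exists_rank P
  set Y : ℂ → ℂ → Prop := fun u v => u ∈ P ∧ v ∈ P ∧ u ≠ v ∧ ∀ x ∈ P, x ≠ u →
    SameCone k (o u) (v - u) (x - u) → x ≠ v →
    dist u v < dist u x ∨ (dist u v = dist u x ∧ ρ v < ρ x) with hY
  set YY : ℂ → ℂ → Prop := fun u v => Y u v ∧ ∀ x, Y x v →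
    SameCone k (o v) (u - v) (x - v) → x ≠ u →
    dist u v < dist x v ∨ (dist u v = dist x v ∧ ρ u < ρ x) with hYY
  refine ⟨Y, YY, ⟨fun u v h => ⟨h.1, h.2.1, h.2.2.1⟩, ?_, ?_⟩, fun u v h => h.1, ?_, ?_⟩
  · intro u v h x hx hxu hs
    by_cases hxv : x = v
    · rw [hxv]
    · rcases h.2.2.2 x hx hxu hs hxv with h1 | h1
      · exact h1.le
      · exact h1.1.le
  · intro u hu v hv huv
    set Q := P.filter (fun x => x ≠ u ∧ SameCone k (o u) (v - u) (x - u)) with hQ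
    have hvQ : v ∈ Q := by
      rw [hQ, Finset.mem_filter]
      exact ⟨hv, huv.symm, sameCone_refl hk _ (sub_ne_zero.2 huv.symm)⟩
    obtain ⟨x, hx, hmin⟩ := exists_best Q ⟨v, hvQ⟩ (fun z => dist u z) ρ (fun x hx y hy h =>
      hρ x (Finset.mem_filter.1 hx).1 y (Finset.mem_filter.1 hy).1 h)
    obtain ⟨hxP, hxu, hxs⟩ := Finset.mem_filter.1 hx
    refine ⟨x, ⟨⟨hu, hxP, hxu.symm, ?_⟩, hxs⟩, ?_⟩
    · intro y hy hyu hys hyx
      exact hmin y (Finset.mem_filter.2 ⟨hy, hyu, sameCone_trans hk hxs hys⟩) hyx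
    · rintro y ⟨hy1, hys⟩
      by_contra hyx
      have h1 := hmin y (Finset.mem_filter.2 ⟨hy1.2.1, hy1.2.2.1.symm, hys⟩) hyx
      have h2 := hy1.2.2.2 x hxP hxu (sameCone_trans hk (sameCone_symm hys) hxs)
        (fun h => hyx h.symm)
      rcases h1 with h1 | ⟨h1, h1'⟩ <;> rcases h2 with h2 | ⟨h2, h2'⟩
      · linarith
      · linarith
      · linarith
      · omega
  · intro u v h x hx hs
    by_cases hxu : x = u
    · rw [hxu]
    · rcases h.2 x hx hs hxu with h1 | h1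
      · exact h1.le
      · exact h1.1.le
  · intro u v huv
    set Q := P.filter (fun x => Y x v ∧ SameCone k (o v) (u - v) (x - v)) with hQ
    have huQ : u ∈ Q := by
      rw [hQ, Finset.mem_filter]
      exact ⟨huv.1, huv, sameCone_refl hk _ (sub_ne_zero.2 huv.2.2.1)⟩
    obtain ⟨x, hx, hmin⟩ := exists_best Q ⟨u, huQ⟩ (fun z => dist z v) ρ (fun x hx y hy h =>
      hρ x (Finset.mem_filter.1 hx).1 y (Finset.mem_filter.1 hy).1 h)
    obtain ⟨hxP, hxY, hxs⟩ := Finset.mem_filter.1 hx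
    refine ⟨x, ⟨⟨hxY, ?_⟩, hxs⟩, ?_⟩
    · intro y hy hys hyx
      exact hmin y (Finset.mem_filter.2 ⟨hy.1, hy, sameCone_trans hk hxs hys⟩) hyx
    · rintro y ⟨hy1, hys⟩
      by_contra hyx
      have h1 := hmin y (Finset.mem_filter.2 ⟨hy1.1.1, hy1.1, hys⟩) hyx
      have h2 := hy1.2 x hxY (sameCone_trans hk (sameCone_symm hys) hxs) (fun h => hyx h.symm)
      rcases h1 with h1 | ⟨h1, h1'⟩ <;> rcases h2 with h2 | ⟨h2, h2'⟩
      · linarith
      · linarith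
      · linarith
      · omega

end Pool.Agent.Lib.Helper10.YY3
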