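import Pool.Agent.Lib.Helper10.YY3.Y2

namespace Pool.Agent.Lib.Helper10.YY3

/-- standing assumptions for a zigzag -/
structure ZH (lam b : ℝ) (N : ℕ) (C : ℕ → Set (ℝ × ℝ × ℝ)) : Prop where
  b0 : 0 < b
  b1 : b ≤ 1 / 8
  l0 : 0 < lam
  l1 : lam ≤ 1 / 4
  N0 : 0 < N
  ev : N % 2 = 0
  hs : hh lam N ≤ lam ^ 2 / 8
  geo : ∀ i < N, Geo lam b (C i)

section

variable {lam b : ℝ} {N : ℕ} {C : ℕ → Set (ℝ × ℝ × ℝ)}

lemma ZH.h0 (H : ZH lam b N C) : 0 < hh lam N := by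
  unfold hh
  have := H.l1
  have h1 : (0 : ℝ) < N := by exact_mod_cast H.N0
  apply div_pos _ h1
  linarith

lemma ZH.hN (H : ZH lam b N C) : N * hh lam N = 1 - 2 * lam := by
  unfold hh
  have h1 : (0 : ℝ) < N := by exact_mod_cast H.N0
  field_simp

lemma ZH.hl (H : ZH lam b N C) : hh lam N ≤ lam / 32 := by
  have h1 := H.hs
  have h2 := H.l1
  have h3 := H.l0
  nlinarith

lemma xn_succ (i : ℕ) : xn lam N (i + 1) = xn lam N i + hh lam N := by
  unfold xn; push_cast; ring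

lemma xn_zero : xn lam N 0 = lam := by unfold xn; simp

lemma ZH.xn_N (H : ZH lam b N C) : xn lam N N = 1 - lam := by
  unfold xn
  rw [H.hN]
  ring

lemma ZH.xn_le (H : ZH lam b N C) {i j : ℕ} (h : i ≤ j) : xn lam N i ≤ xn lam N j := by
  unfold xn
  have h1 : (i : ℝ) ≤ j := by exact_mod_cast h
  have := H.h0
  nlinarith

lemma ZH.xn_lt (H : ZH lam b N C) {i j : ℕ} (h : i < j) : xn lam N i < xn lam N j := by
  unfold xn
  have h1 : (i : ℝ) < j := by exact_mod_cast h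
  have := H.h0
  nlinarith

lemma ZH.xn_add (H : ZH lam b N C) {i j : ℕ} (h : i < j) :
    xn lam N i + hh lam N ≤ xn lam N j := by
  rw [← xn_succ]
  exact H.xn_le h

lemma ZH.lt_of_xn_lt (H : ZH lam b N C) {i j : ℕ} (h : xn lam N i < xn lam N j) : i < j := by
  by_contra hc
  push Not at hc
  have := H.xn_le hc
  linarith

lemma ZH.xn_lo (H : ZH lam b N C) (i : ℕ) : lam ≤ xn lam N i := by
  have := H.xn_le (Nat.zero_le i)
  rwa [xn_zero] at this

lemma ZH.xn_hi (H : ZH lam b N C) {i : ℕ} (h : i ≤ N) : xn lam N i ≤ 1 - lam := by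
  have := H.xn_le h
  rwa [H.xn_N] at this

lemma ZH.yn_bd (H : ZH lam b N C) (i : ℕ) : 0 ≤ yn lam b N i ∧ yn lam b N i ≤ b * hh lam N := by
  unfold yn
  have h1 := mul_pos H.b0 H.h0
  split_ifs
  · exact ⟨le_rfl, h1.le⟩
  · exact ⟨h1.le, le_rfl⟩

/-- a point of a block is an endpoint or has abscissa in `[lam, 1 - lam]` -/
lemma pt_cases {C : Set (ℝ × ℝ × ℝ)} {q : ℝ × ℝ} (h : q ∈ pt C) :
    q = (0, 0) ∨ q = (1, 0) ∨ ∃ σ, (q.1, q.2, σ) ∈ C := h

lemma zero_mem (C : Set (ℝ × ℝ × ℝ)) : ((0 : ℝ), (0 : ℝ)) ∈ pt C := Or.inl rfl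

lemma one_mem (C : Set (ℝ × ℝ × ℝ)) : ((1 : ℝ), (0 : ℝ)) ∈ pt C := Or.inr (Or.inl rfl)

lemma int_mem {C : Set (ℝ × ℝ × ℝ)} {p : ℝ × ℝ × ℝ} (h : p ∈ C) : (p.1, p.2.1) ∈ pt C :=
  Or.inr (Or.inr ⟨p.2.2, h⟩)

/-- box for all points -/
lemma Geo.pbox {C : Set (ℝ × ℝ × ℝ)} (hb : 0 < b) (hg : Geo lam b C) {q : ℝ × ℝ} (h : q ∈ pt C)
    (hl : 0 < lam) :
    0 ≤ q.1 ∧ q.1 ≤ 1 ∧ 0 ≤ q.2 ∧ q.2 ≤ b * lam ^ 2 / 8 := by
  have h0 : 0 ≤ b * lam ^ 2 / 8 := by positivity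
  rcases h with rfl | rfl | ⟨σ, h⟩
  · exact ⟨le_rfl, zero_le_one, le_rfl, h0⟩
  · exact ⟨zero_le_one, le_rfl, le_rfl, h0⟩
  · have := hg.box _ h
    simp only at this
    exact ⟨by linarith [this.1], by linarith [this.2.1], this.2.2.1, this.2.2.2⟩

/-- the abscissa determines the point -/
lemma Geo.pinj {C : Set (ℝ × ℝ × ℝ)} (hl : 0 < lam) (hg : Geo lam b C) {p q : ℝ × ℝ}
    (hp : p ∈ pt C) (hq : q ∈ pt C) (h : p.1 = q.1) : p = q := by
  rcases hp with rfl | rfl | ⟨σ, hp⟩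
  · rcases hq with rfl | rfl | ⟨τ, hq⟩
    · rfl
    · simp at h
    · have := hg.box _ hq
      simp only at this h
      linarith [this.1]
  · rcases hq with rfl | rfl | ⟨τ, hq⟩
    · simp at h
    · rfl
    · have := hg.box _ hq
      simp only at this h
      linarith [this.2.1]
  · rcases hq with rfl | rfl | ⟨τ, hq⟩
    · have := hg.box _ hp
      simp only at this h
      linarith [this.1]
    · have := hg.box _ hp
      simp only at this h
      linarith [this.2.1]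
    · have := hg.inj _ hp _ hq h
      ext
      · exact h
      · have h2 := congrArg (fun t => t.2.1) this
        exact h2

lemma nd_mem {i : ℕ} (h : i ≤ N) : nd lam b N i ∈ pt (Zig lam b N C) :=
  Or.inr (Or.inr ⟨0, Or.inl ⟨i, h, rfl⟩⟩)

lemma am_int {i : ℕ} (h : i < N) {p : ℝ × ℝ × ℝ} (hp : p ∈ C i) :
    ((am lam b N i (p.1, p.2.1)).1, (am lam b N i (p.1, p.2.1)).2, p.2.2 + sg i * b) ∈
      Zig lam b N C :=
  Or.inr ⟨i, h, p, hp, rfl⟩

/-- images of block points are zigzag points -/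
lemma am_mem {i : ℕ} (h : i < N) {q : ℝ × ℝ} (hq : q ∈ pt (C i)) :
    am lam b N i q ∈ pt (Zig lam b N C) := by
  rcases hq with rfl | rfl | ⟨σ, hq⟩
  · rw [am_zero]; exact nd_mem h.le
  · rw [am_one]; exact nd_mem h
  · exact Or.inr (Or.inr ⟨_, am_int h hq⟩)

lemma am_fst (i : ℕ) (q : ℝ × ℝ) : (am lam b N i q).1 = xn lam N i + hh lam N * q.1 := rfl

/-- abscissas of tooth points -/
lemma ZH.am_x (H : ZH lam b N C) {i : ℕ} (h : i < N) {q : ℝ × ℝ} (hq : q ∈ pt (C i)) :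
    xn lam N i ≤ (am lam b N i q).1 ∧ (am lam b N i q).1 ≤ xn lam N (i + 1) := by
  have h1 := (H.geo i h).pbox H.b0 hq H.l0
  have h2 := H.h0
  rw [am_fst, xn_succ]
  constructor
  · nlinarith [mul_nonneg h2.le h1.1]
  · nlinarith [mul_le_mul_of_nonneg_left h1.2.1 h2.le]

/-- abscissas of interior tooth points -/
lemma ZH.am_xi (H : ZH lam b N C) {i : ℕ} (h : i < N) {p : ℝ × ℝ × ℝ} (hp : p ∈ C i) :
    xn lam N i + hh lam N * lam ≤ (am lam b N i (p.1, p.2.1)).1 ∧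
    (am lam b N i (p.1, p.2.1)).1 ≤ xn lam N (i + 1) - hh lam N * lam := by
  have h1 := (H.geo i h).box _ hp
  have h2 := H.h0
  rw [am_fst, xn_succ]
  constructor
  · nlinarith [mul_le_mul_of_nonneg_left h1.1 h2.le]
  · nlinarith [mul_le_mul_of_nonneg_left h1.2.1 h2.le]

/-- ordinates of tooth points -/
lemma ZH.am_y (H : ZH lam b N C) {i : ℕ} (h : i < N) {q : ℝ × ℝ} (hq : q ∈ pt (C i)) :
    0 ≤ (am lam b N i q).2 ∧ (am lam b N i q).2 ≤ b * hh lam N := by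
  have h0 := H.h0
  have hb := H.b0
  have hl := H.l0
  have hl1 := H.l1
  have hbh := mul_pos hb h0
  rcases hq with rfl | rfl | ⟨σ, hq⟩
  · rw [am_zero]; exact H.yn_bd i
  · rw [am_one]; exact H.yn_bd _
  · have h1 := (H.geo i h).box _ hq
    simp only at h1
    obtain ⟨h2, h3, h4, h5⟩ := h1
    have h6 : b * lam ^ 2 / 8 ≤ b * lam := by nlinarith [mul_pos hb hl]
    have h7 : b * lam ≤ b * q.1 := mul_le_mul_of_nonneg_left h2 hb.le
    have h8 : b * q.1 ≤ b * (1 - lam) := mul_le_mul_of_nonneg_left h3 hb.le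
    unfold am yn sg
    simp only
    split_ifs with hi
    · constructor
      · have : 0 ≤ q.2 + 1 * b * q.1 := by nlinarith [mul_pos hb hl]
        nlinarith [mul_nonneg h0.le this]
      · have : q.2 + 1 * b * q.1 ≤ b := by linarith
        nlinarith [mul_le_mul_of_nonneg_left this h0.le]
    · constructor
      · have : -b ≤ q.2 + -1 * b * q.1 := by linarith [mul_pos hb hl]
        nlinarith [mul_le_mul_of_nonneg_left this h0.le]
      · have : q.2 + -1 * b * q.1 ≤ 0 := by linarith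
        nlinarith [mul_le_mul_of_nonneg_left this h0.le]

/-- every interior point of the zigzag is a node or in a tooth -/
lemma zig_cases {q : ℝ × ℝ} (h : q ∈ pt (Zig lam b N C)) :
    q = (0, 0) ∨ q = (1, 0) ∨ (∃ i ≤ N, q = nd lam b N i) ∨
      ∃ i < N, ∃ p ∈ C i, q = am lam b N i (p.1, p.2.1) := by
  rcases h with h | h | ⟨σ, h | h⟩
  · exact Or.inl h
  · exact Or.inr (Or.inl h)
  · obtain ⟨i, hi, h2⟩ := h
    refine Or.inr (Or.inr (Or.inl ⟨i, hi, ?_⟩))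
    ext
    · exact congrArg (fun t => t.1) h2
    · exact congrArg (fun t => t.2.1) h2
  · obtain ⟨i, hi, p, hp, h2⟩ := h
    refine Or.inr (Or.inr (Or.inr ⟨i, hi, p, hp, ?_⟩))
    ext
    · exact congrArg (fun t => t.1) h2
    · exact congrArg (fun t => t.2.1) h2

/-- points of the zigzag over a tooth are in the tooth -/
lemma ZH.tooth_mem (H : ZH lam b N C) {i : ℕ} (hi : i < N) {q : ℝ × ℝ}
    (hq : q ∈ pt (Zig lam b N C)) (h1 : xn lam N i ≤ q.1) (h2 : q.1 ≤ xn lam N (i + 1)) :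
    ∃ p ∈ pt (C i), q = am lam b N i p := by
  have h0 := H.h0
  have hl := H.l0
  rcases zig_cases hq with rfl | rfl | ⟨j, hj, rfl⟩ | ⟨j, hj, p, hp, rfl⟩
  · exfalso
    have := H.xn_lo i
    simp only at h1
    linarith
  · exfalso
    have := H.xn_hi (i := i + 1) hi
    simp only at h2
    linarith
  · have e : (nd lam b N j).1 = xn lam N j := rfl
    rw [e] at h1 h2
    have g1 : i ≤ j := by
      by_contra hc
      push Not at hc
      have := H.xn_lt hc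
      linarith
    have g2 : j ≤ i + 1 := by
      by_contra hc
      push Not at hc
      have := H.xn_lt hc
      linarith
    have g3 : j = i ∨ j = i + 1 := by omega
    rcases g3 with rfl | rfl
    · exact ⟨(0, 0), zero_mem _, (am_zero _ _ _ _).symm⟩
    · exact ⟨(1, 0), one_mem _, (am_one _ _ _ _).symm⟩
  · have h3 := H.am_xi hj hp
    have h4 : 0 < hh lam N * lam := mul_pos h0 hl
    have g1 : i < j + 1 := H.lt_of_xn_lt (by linarith)
    have g2 : j < i + 1 := H.lt_of_xn_lt (by linarith)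
    have g3 : j = i := by omega
    subst g3
    exact ⟨_, int_mem hp, rfl⟩

/-- every point of the zigzag with abscissa in `[lam, 1-lam)` lies over a tooth -/
lemma ZH.exists_tooth (H : ZH lam b N C) {x : ℝ} (h1 : lam ≤ x) (h2 : x < 1 - lam) :
    ∃ i < N, xn lam N i ≤ x ∧ x < xn lam N (i + 1) := by
  have h0 := H.h0
  have hN := H.hN
  refine ⟨⌊(x - lam) / hh lam N⌋₊, ?_, ?_, ?_⟩
  · rw [Nat.floor_lt (by apply div_nonneg <;> linarith), div_lt_iff₀ h0]
    linarith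
  · have := Nat.floor_le (a := (x - lam) / hh lam N) (by apply div_nonneg <;> linarith)
    rw [le_div_iff₀ h0] at this
    unfold xn
    linarith
  · have := Nat.lt_floor_add_one ((x - lam) / hh lam N)
    rw [div_lt_iff₀ h0] at this
    unfold xn
    push_cast
    linarith

/-- box of the zigzag -/
lemma ZH.zbox (H : ZH lam b N C) {q : ℝ × ℝ} (hq : q ∈ pt (Zig lam b N C)) :
    0 ≤ q.2 ∧ q.2 ≤ b * hh lam N ∧ (q = (0, 0) ∨ q = (1, 0) ∨ (lam ≤ q.1 ∧ q.1 ≤ 1 - lam)) := by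
  have h0 := H.h0
  have hb := H.b0
  have hbh := mul_pos hb h0
  rcases zig_cases hq with rfl | rfl | ⟨j, hj, rfl⟩ | ⟨j, hj, p, hp, rfl⟩
  · exact ⟨le_rfl, hbh.le, Or.inl rfl⟩
  · exact ⟨le_rfl, hbh.le, Or.inr (Or.inl rfl)⟩
  · exact ⟨(H.yn_bd j).1, (H.yn_bd j).2, Or.inr (Or.inr ⟨H.xn_lo j, H.xn_hi hj⟩)⟩
  · have h1 := H.am_y hj (int_mem hp)
    have h2 := H.am_x hj (int_mem hp)
    exact ⟨h1.1, h1.2, Or.inr (Or.inr ⟨(H.xn_lo j).trans h2.1, h2.2.trans (H.xn_hi hj)⟩)⟩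

lemma ZH.zbox' (H : ZH lam b N C) {q : ℝ × ℝ} (hq : q ∈ pt (Zig lam b N C)) :
    0 ≤ q.1 ∧ q.1 ≤ 1 := by
  have hl := H.l0
  have hl1 := H.l1
  rcases (H.zbox hq).2.2 with rfl | rfl | h
  · exact ⟨le_rfl, zero_le_one⟩
  · exact ⟨zero_le_one, le_rfl⟩
  · constructor <;> linarith [h.1, h.2]

end

end Pool.Agent.Lib.Helper10.YY3
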