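import Pool.Agent.Lib.Helper10.YY3.Y5

namespace Pool.Agent.Lib.Helper10.YY3

open Real

lemma arctan_sub_le {x y : ℝ} (h : x ≤ y) : arctan y - arctan x ≤ y - x := by
  have h1 := (convex_univ (𝕜 := ℝ) (E := ℝ)).image_sub_le_mul_sub_of_deriv_le (f := arctan) (C := 1)
    Real.continuous_arctan.continuousOn
    (Real.differentiable_arctan.differentiableOn)
    (fun z _ => by
      rw [Real.deriv_arctan, div_le_one (by positivity)]
      nlinarith [sq_nonneg z]) x (Set.mem_univ _) y (Set.mem_univ _) h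
  linarith

lemma le_arctan_sub {x y S : ℝ} (h : x ≤ y) (hx : |x| ≤ S) (hy : |y| ≤ S) :
    (y - x) / (1 + S ^ 2) ≤ arctan y - arctan x := by
  have h1 := (convex_Icc x y).mul_sub_le_image_sub_of_le_deriv (f := arctan) (C := 1 / (1 + S ^ 2))
    Real.continuous_arctan.continuousOn
    (Real.differentiable_arctan.differentiableOn)
    (fun z hz => by
      have hz' := interior_subset hz
      rw [Real.deriv_arctan]
      apply one_div_le_one_div_of_le (by positivity)
      have : |z| ≤ S := by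
        rw [abs_le] at hx hy ⊢
        exact ⟨hx.1.trans hz'.1, hz'.2.trans hy.2⟩
      have := sq_le_sq' (abs_le.1 this).1 (abs_le.1 this).2
      linarith) x (Set.left_mem_Icc.2 h) y (Set.right_mem_Icc.2 h) h
  calc (y - x) / (1 + S ^ 2) = 1 / (1 + S ^ 2) * (y - x) := by ring
    _ ≤ _ := h1

lemma arctan_lip (x y : ℝ) : |arctan x - arctan y| ≤ |x - y| := by
  rcases le_total x y with h | h
  · have := arctan_sub_le h
    have h2 := Real.arctan_mono h
    rw [abs_of_nonpos (by linarith), abs_of_nonpos (by linarith)]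
    linarith
  · have := arctan_sub_le h
    have h2 := Real.arctan_mono h
    rw [abs_of_nonneg (by linarith), abs_of_nonneg (by linarith)]
    linarith

/-- direction angle of the line through `v` and `x` under the shear `s` -/
noncomputable def ang (s : ℝ) (v x : ℝ × ℝ) : ℝ := arctan (s + sl v x)

lemma ang_lip (s σ : ℝ) (v x : ℝ × ℝ) : |ang s v x - arctan (s + σ)| ≤ |sl v x - σ| := by
  unfold ang
  have := arctan_lip (s + sl v x) (s + σ)
  rwa [show s + sl v x - (s + σ) = sl v x - σ by ring] at this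

section

variable {k : ℕ} {o s : ℝ} {v x y : ℝ × ℝ}

lemma dvR (h : v.1 < x.1) : 0 < (dv s v x).re := by rw [dv_re]; linarith

lemma dvL (h : x.1 < v.1) : (dv s v x).re < 0 := by rw [dv_re]; linarith

lemma angR (h : v.1 ≠ x.1) : arctan ((dv s v x).im / (dv s v x).re) = ang s v x := by
  rw [dv_ratio h.symm]; rfl

lemma same_R {j : ℤ} (hx : v.1 < x.1) (hy : v.1 < y.1) (h1 : InCone k o j (ang s v x))
    (h2 : InCone k o j (ang s v y)) : SameCone k o (dv s v x) (dv s v y) := by
  apply same_of_right (dvR hx) (dvR hy) (j := j)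
  · rw [angR hx.ne]; exact h1
  · rw [angR hy.ne]; exact h2

lemma same_L {j : ℤ} (hx : x.1 < v.1) (hy : y.1 < v.1) (h1 : InCone k o j (ang s v x + π))
    (h2 : InCone k o j (ang s v y + π)) : SameCone k o (dv s v x) (dv s v y) := by
  apply same_of_left (dvL hx) (dvL hy) (j := j)
  · rw [angR hx.ne']; exact h1
  · rw [angR hy.ne']; exact h2

lemma same_close_R (hk : 2 ≤ k) {σ μ ν : ℝ} (hA : Avoid k o (arctan (s + σ)) μ) (hν : ν < μ)
    (hx : v.1 < x.1) (hy : v.1 < y.1) (h1 : |sl v x - σ| ≤ ν) (h2 : |sl v y - σ| ≤ ν) :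
    SameCone k o (dv s v x) (dv s v y) := by
  obtain ⟨j, a1, a2⟩ := Avoid.close hk (fun j => (hA j).1) hν ((ang_lip s σ v x).trans h1)
    ((ang_lip s σ v y).trans h2)
  exact same_R hx hy a1 a2

lemma same_close_L (hk : 2 ≤ k) {σ μ ν : ℝ} (hA : Avoid k o (arctan (s + σ)) μ) (hν : ν < μ)
    (hx : x.1 < v.1) (hy : y.1 < v.1) (h1 : |sl v x - σ| ≤ ν) (h2 : |sl v y - σ| ≤ ν) :
    SameCone k o (dv s v x) (dv s v y) := by
  have e1 : |ang s v x + π - (arctan (s + σ) + π)| ≤ ν := by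
    rw [show ang s v x + π - (arctan (s + σ) + π) = ang s v x - arctan (s + σ) by ring]
    exact (ang_lip s σ v x).trans h1
  have e2 : |ang s v y + π - (arctan (s + σ) + π)| ≤ ν := by
    rw [show ang s v y + π - (arctan (s + σ) + π) = ang s v y - arctan (s + σ) by ring]
    exact (ang_lip s σ v y).trans h2
  obtain ⟨j, a1, a2⟩ := Avoid.close hk (fun j => (hA j).2) hν e1 e2
  exact same_L hx hy a1 a2

lemma not_same_RL (hk : 2 ≤ k) {σ μ ν : ℝ} (hμ : 0 < μ) (hA : Avoid k o (arctan (s + σ)) μ)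
    (hν : ν < μ) (hx : v.1 < x.1) (hy : y.1 < v.1) (h1 : |sl v x - σ| ≤ ν)
    (h2 : |sl v y - σ| ≤ ν) : ¬ SameCone k o (dv s v x) (dv s v y) := by
  apply Avoid.opposite hk hμ hA hν (dvR hx) (dvL hy)
  · rw [angR hx.ne]; exact (ang_lip s σ v x).trans h1
  · rw [angR hy.ne']; exact (ang_lip s σ v y).trans h2

end

lemma SameCone.symm {k : ℕ} {a : ℝ} {z z' : ℂ} (h : SameCone k a z z') : SameCone k a z' z := by
  obtain ⟨j, r, φ, r', φ', h1, h2, h3, h4, h5, h6, h7, h8⟩ := h
  exact ⟨j, r', φ', r, φ, h5, h6, h7, h8, h1, h2, h3, h4⟩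

lemma sameCone_smul {k : ℕ} {a c : ℝ} (hc : 0 < c) {z z' : ℂ} :
    SameCone k a (c * z) (c * z') ↔ SameCone k a z z' := by
  have hcc : (c : ℂ) ≠ 0 := by exact_mod_cast hc.ne'
  constructor
  · rintro ⟨j, r, φ, r', φ', h1, h2, h3, h4, h5, h6, h7, h8⟩
    refine ⟨j, r / c, φ, r' / c, φ', by positivity, h2, h3, ?_, by positivity, h6, h7, ?_⟩
    · apply mul_left_cancel₀ hcc
      rw [h4]; push_cast; field_simp
    · apply mul_left_cancel₀ hcc
      rw [h8]; push_cast; field_simp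
  · rintro ⟨j, r, φ, r', φ', h1, h2, h3, h4, h5, h6, h7, h8⟩
    refine ⟨j, c * r, φ, c * r', φ', by positivity, h2, h3, ?_, by positivity, h6, h7, ?_⟩
    · rw [h4]; push_cast; ring
    · rw [h8]; push_cast; ring

/-- `w` is (weakly) nearest to `v` in its cone -/
def Vis (k : ℕ) (C : Set (ℝ × ℝ × ℝ)) (s o : ℝ) (v w : ℝ × ℝ) : Prop :=
  ∀ x ∈ pt C, x ≠ v → SameCone k o (dv s v w) (dv s v x) → d2 s v w ≤ d2 s v x

/-- admissible orientation `o` of an interior point -/
structure OKv (k : ℕ) (b : ℝ) (C : Set (ℝ × ℝ × ℝ)) (s o : ℝ) (p : ℝ × ℝ × ℝ) : Prop where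
  av : Avoid k o (arctan (s + p.2.2)) (8 * b)
  vis : ∀ w ∈ pt C, w ≠ (p.1, p.2.1) → Vis k C s o (p.1, p.2.1) w →
    Cons C (p.1, p.2.1) w ∨ w = (0, 0) ∨ w = (1, 0) ∨
      ∃ τ, (w.1, w.2, τ) ∈ C ∧ |sl (p.1, p.2.1) w - τ| ≤ 3 * b
  cc : ∀ w ∈ pt C, Cons C (p.1, p.2.1) w → ∀ x ∈ pt C, x ≠ (p.1, p.2.1) → x ≠ w →
    SameCone k o (dv s (p.1, p.2.1) w) (dv s (p.1, p.2.1) x) →
    d2 s (p.1, p.2.1) w < d2 s (p.1, p.2.1) x

section

variable {lam b : ℝ} {N : ℕ} {C : ℕ → Set (ℝ × ℝ × ℝ)} {k : ℕ}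

/-- nodes: every orientation avoiding the horizontal direction is fine -/
lemma ZH.ok_node (H : ZH lam b N C) (hk : 2 ≤ k) (hbk : 128 * b ≤ coneAngle k) {s o : ℝ} {i : ℕ}
    (hi : i ≤ N) (ho : Avoid k o (arctan (s + 0)) (8 * b)) :
    OKv k b (Zig lam b N C) s o ((nd lam b N i).1, (nd lam b N i).2, 0) := by
  have hb := H.b0
  have G := H.geo_zig
  have hnode : IsNode lam b N (nd lam b N i) := isNode_nd hi
  have hvm : nd lam b N i ∈ pt (Zig lam b N C) := nd_mem hi
  have key : ∀ w ∈ pt (Zig lam b N C), Cons (Zig lam b N C) (nd lam b N i) w →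
      ∀ x ∈ pt (Zig lam b N C), x ≠ nd lam b N i → x ≠ w →
      SameCone k o (dv s (nd lam b N i) w) (dv s (nd lam b N i) x) →
      d2 s (nd lam b N i) w < d2 s (nd lam b N i) x := by
    intro w hw hc x hx hxv hxw hsame
    have s1 := H.slope_node hnode hw
    have s2 := H.slope_node hnode hx
    have hxv1 : x.1 ≠ (nd lam b N i).1 := fun h => hxv (H.zinj hx hvm h)
    have hxw1 : x.1 ≠ w.1 := fun h => hxw (H.zinj hx hw h)
    rcases lt_or_gt_of_ne hc.1 with h1 | h1
    · rcases lt_or_gt_of_ne hxv1 with h2 | h2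
      · exfalso
        exact not_same_RL hk (by linarith) ho (ν := 2 * b) (by linarith) h1 h2 (by simpa using s1)
          (by simpa using s2) hsame
      · rcases lt_or_gt_of_ne hxw1 with h3 | h3
        · exact absurd ⟨h2, h3⟩ (hc.2 x hx).1
        · exact G.nearR s _ hvm w hw x hx hc h1 h3
    · rcases lt_or_gt_of_ne hxv1 with h2 | h2
      · rcases lt_or_gt_of_ne hxw1 with h3 | h3
        · exact G.nearL s _ hvm w hw x hx hc h1 h3
        · exact absurd ⟨h3, h2⟩ (hc.2 x hx).2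
      · exfalso
        exact not_same_RL hk (by linarith) ho (ν := 2 * b) (by linarith) h2 h1 (by simpa using s2)
          (by simpa using s1) hsame.symm
  refine ⟨ho, ?_, key⟩
  intro w hw hne hvis
  left
  change w ≠ nd lam b N i at hne
  change Vis k _ s o (nd lam b N i) w at hvis
  change Cons _ (nd lam b N i) w
  have hne1 : w.1 ≠ (nd lam b N i).1 := fun h => hne (H.zinj hw hvm h)
  have sw := H.slope_node hnode hw
  rcases lt_or_gt_of_ne hne1 with h1 | h1
  · obtain ⟨u, hu, hcu, h2, h3⟩ := exists_consL G.fin hw h1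
    rcases lt_or_eq_of_le h3 with h4 | h4
    · exfalso
      have su := H.slope_node hnode hu
      have hs := same_close_L hk ho (s := s) (ν := 2 * b) (by linarith) h1 h2 (by simpa using sw)
        (by simpa using su)
      have h5 := hvis u hu (fun h => hcu.1 (by rw [h])) hs
      have h6 := G.nearL s _ hvm u hu w hw hcu h2 h4
      linarith
    · rw [H.zinj hw hu h4]; exact hcu
  · obtain ⟨u, hu, hcu, h2, h3⟩ := exists_consR G.fin hw h1
    rcases lt_or_eq_of_le h3 with h4 | h4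
    · exfalso
      have su := H.slope_node hnode hu
      have hs := same_close_R hk ho (s := s) (ν := 2 * b) (by linarith) h1 h2 (by simpa using sw)
        (by simpa using su)
      have h5 := hvis u hu (fun h => hcu.1 (by rw [h])) hs
      have h6 := G.nearR s _ hvm u hu w hw hcu h2 h4
      linarith
    · rw [← H.zinj hu hw h4]; exact hcu

end

/-- if a ray separates two points of `[x, y]` then an end of the interval is in the cone -/
lemma between_core {k : ℕ} {o : ℝ} {m : ℤ} {x y z : ℝ} (h1 : x ≤ z) (h2 : z ≤ y)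
    (h3 : y - x < coneAngle k) (hz : InCone k o m z) : InCone k o m x ∨ InCone k o m y := by
  obtain ⟨a1, a2⟩ := hz
  by_cases hx : o + m * coneAngle k ≤ x
  · left; exact ⟨hx, by linarith⟩
  · right
    push Not at hx
    refine ⟨by linarith, ?_⟩
    rw [add_mul, one_mul, ← add_assoc]
    linarith

/-- the abstract consequence of aiming -/
lemma aim_cone {k : ℕ} {b s o c κ g δ e : ℝ} {T Nd : Set (ℝ × ℝ)} (hb : 0 < b)
    (hbk : 128 * b ≤ coneAngle k) (he : e = 1 ∨ e = -1)
    (hG : ∀ (m : ℤ) (τ : ℝ), |τ - s| ≤ 3 * b → o + m * coneAngle k = arctan τ + c →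
      GoodR T Nd κ g δ (e * (τ - s) + b))
    (hsub : Nd ⊆ T)
    (hQ : ∀ p ∈ T, Fa κ g δ p ≤ Fa κ g δ (0, 0))
    (hS : ∀ p ∈ T, |-e * b + e * Fa κ g δ p| ≤ 2 * b) (h00 : (0, 0) ∈ T)
    {w : ℝ × ℝ} (hw : w ∈ T) {m : ℤ}
    (hwm : InCone k o m (arctan (s + (-e * b + e * Fa κ g δ w)) + c))
    (hQm : ¬ InCone k o m (arctan (s + (-e * b + e * Fa κ g δ (0, 0))) + c)) :
    ∃ q ∈ Nd, q.1 ≤ w.1 ∧ q ≠ (0, 0) ∧
      InCone k o m (arctan (s + (-e * b + e * Fa κ g δ q)) + c) := by
  have hSQ := hS _ h00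
  have hSw := hS _ hw
  have hQw := hQ _ hw
  set FQ := Fa κ g δ (0, 0) with hFQ
  set Fw := Fa κ g δ w with hFw
  have hee : e * e = 1 := by rcases he with rfl | rfl <;> norm_num
  have bw := Real.arctan_lt_pi_div_two (s + (-e * b + e * Fw))
  have bw' := Real.neg_pi_div_two_lt_arctan (s + (-e * b + e * Fw))
  have bQ := Real.arctan_lt_pi_div_two (s + (-e * b + e * FQ))
  have bQ' := Real.neg_pi_div_two_lt_arctan (s + (-e * b + e * FQ))
  obtain ⟨w1, w2⟩ := hwm
  -- closeness of any point of T to a ray direction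
  have hclose : ∀ q ∈ T, ∀ τ, |τ - s| ≤ 2 * b →
      |arctan (s + (-e * b + e * Fa κ g δ q)) - arctan τ| ≤ 4 * b := by
    intro q hq τ hτ
    refine (arctan_lip _ _).trans ?_
    have := hS q hq
    calc |s + (-e * b + e * Fa κ g δ q) - τ| = |(-e * b + e * Fa κ g δ q) - (τ - s)| := by
          congr 1; ring
      _ ≤ |-e * b + e * Fa κ g δ q| + |τ - s| := abs_sub _ _
      _ ≤ 4 * b := by linarith
  have hmid : ∀ τ, (s + (-e * b + e * FQ) ≤ τ ∧ τ ≤ s + (-e * b + e * Fw)) ∨
      (s + (-e * b + e * Fw) ≤ τ ∧ τ ≤ s + (-e * b + e * FQ)) → |τ - s| ≤ 2 * b := by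
    intro τ h
    rw [abs_le] at hSQ hSw ⊢
    rcases h with h | h
    · constructor <;> linarith [h.1, h.2, hSQ.1, hSQ.2, hSw.1, hSw.2]
    · constructor <;> linarith [h.1, h.2, hSQ.1, hSQ.2, hSw.1, hSw.2]
  by_cases hA : arctan (s + (-e * b + e * FQ)) + c < o + m * coneAngle k
  · -- the ray `o + mθ` is between Q and w, Q below
    obtain ⟨τ, hτ⟩ : ∃ τ, arctan τ = o + m * coneAngle k - c := by
      refine ⟨tan (o + m * coneAngle k - c), Real.arctan_tan ?_ ?_⟩ <;> linarith
    have t1 : s + (-e * b + e * FQ) < τ := by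
      rw [← Real.arctan_lt_arctan_iff, hτ]; linarith
    have t2 : τ ≤ s + (-e * b + e * Fw) := by
      rw [← Real.arctan_le_arctan_iff, hτ]; linarith
    have t3 := hmid τ (Or.inl ⟨t1.le, t2⟩)
    have hgood := hG m τ (by linarith) (by rw [hτ]; ring)
    have he1 : e = -1 := by
      rcases he with rfl | rfl
      · exfalso; linarith
      · rfl
    subst he1
    have hFwr : Fw ≤ -1 * (τ - s) + b := by linarith
    obtain ⟨q, hq, hq1, hq2⟩ := hgood.2 w hw hFwr
    refine ⟨q, hq, hq1, ?_, ?_⟩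
    · rintro rfl
      rw [← hFQ] at hq2
      linarith
    · have hcl := hclose q (hsub hq) τ t3
      have h5 : τ ≤ s + (-(-1) * b + -1 * Fa κ g δ q) := by linarith
      have h6 := Real.arctan_mono h5
      rw [hτ] at h6 hcl
      rw [abs_le] at hcl
      have e3 : o + (m + 1) * coneAngle k = o + m * coneAngle k + coneAngle k := by ring
      refine ⟨by linarith, ?_⟩
      linarith [hcl.2]
  · push Not at hA
    have hB : o + (m + 1) * coneAngle k ≤ arctan (s + (-e * b + e * FQ)) + c := by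
      by_contra hcon
      push Not at hcon
      exact hQm ⟨hA, hcon⟩
    obtain ⟨τ, hτ⟩ : ∃ τ, arctan τ = o + (m + 1) * coneAngle k - c := by
      refine ⟨tan (o + (m + 1) * coneAngle k - c), Real.arctan_tan ?_ ?_⟩ <;> linarith
    have t1 : s + (-e * b + e * Fw) < τ := by
      rw [← Real.arctan_lt_arctan_iff, hτ]; linarith
    have t2 : τ ≤ s + (-e * b + e * FQ) := by
      rw [← Real.arctan_le_arctan_iff, hτ]; linarith
    have t3 := hmid τ (Or.inr ⟨t1.le, t2⟩)
    have hgood := hG (m + 1) τ (by linarith) (by rw [hτ]; push_cast; ring)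
    have he1 : e = 1 := by
      rcases he with rfl | rfl
      · rfl
      · exfalso; linarith
    subst he1
    have hFwr : Fw < 1 * (τ - s) + b := by linarith
    obtain ⟨q, hq, hq1, hq2⟩ := hgood.1 w hw hFwr
    refine ⟨q, hq, hq1, ?_, ?_⟩
    · rintro rfl
      rw [← hFQ] at hq2
      linarith
    · have hcl := hclose q (hsub hq) τ t3
      have h5 : s + (-1 * b + 1 * Fa κ g δ q) < τ := by linarith
      have h6 := Real.arctan_strictMono h5
      rw [hτ] at h6 hcl
      rw [abs_le] at hcl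
      have e3 : o + (m + 1) * coneAngle k = o + m * coneAngle k + coneAngle k := by ring
      refine ⟨?_, by linarith⟩
      linarith [hcl.1]

end Pool.Agent.Lib.Helper10.YY3
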