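import Pool.Agent.Lib.Helper10.YY3.Y7

namespace Pool.Agent.Lib.Helper10.YY3

open Real

section

variable {lam b : ℝ} {N : ℕ} {C : ℕ → Set (ℝ × ℝ × ℝ)} {k : ℕ}

/-- the left neighbour tooth -/
lemma ZH.adjL (H : ZH lam b N C) (hk : 2 ≤ k) (hbk : 128 * b ≤ coneAngle k) {s o : ℝ} {i : ℕ}
    (hj : i + 1 < N) {p : ℝ × ℝ × ℝ} (hp : p ∈ C (i + 1)) {Nd : Set (ℝ × ℝ)}
    (hNd : NodeSet b (C i) Nd) (hA : AimL k b s o (sg (i + 1)) p.1 p.2.1 (C i) Nd)
    {w : ℝ × ℝ × ℝ} (hw : w ∈ C i)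
    (hvis : Vis k (Zig lam b N C) s o (am lam b N (i + 1) (p.1, p.2.1))
      (am lam b N i (w.1, w.2.1))) :
    ∃ τ, ((am lam b N i (w.1, w.2.1)).1, (am lam b N i (w.1, w.2.1)).2, τ) ∈
      Zig lam b N C ∧
      |sl (am lam b N (i + 1) (p.1, p.2.1)) (am lam b N i (w.1, w.2.1)) - τ| ≤ 3 * b := by
  have h0 := H.h0
  have hb := H.b0
  have hb1 := H.b1
  have hl := H.l0
  have hl1 := H.l1
  have h00 : 0 < hh lam N * lam := mul_pos h0 hl
  have hi : i < N := by omega
  obtain ⟨pb1, pb2, pb3, pb4⟩ := (H.geo _ hj).box _ hp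
  obtain ⟨wb1, wb2, wb3, wb4⟩ := (H.geo _ hi).box _ hw
  set v := am lam b N (i + 1) (p.1, p.2.1) with hv
  set W := am lam b N i (w.1, w.2.1) with hW
  set Q := nd lam b N (i + 1) with hQ
  have hvm : v ∈ pt (Zig lam b N C) := am_mem hj (int_mem hp)
  have hWm : W ∈ pt (Zig lam b N C) := am_mem hi (int_mem hw)
  have hQm : Q ∈ pt (Zig lam b N C) := nd_mem hj.le
  have hQn : IsNode lam b N Q := isNode_nd hj.le
  have hQ1 : Q.1 = xn lam N (i + 1) := rfl
  have vx := H.am_xi hj hp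
  rw [← hv] at vx
  have vQ : Q.1 < v.1 := by rw [hQ1]; linarith
  have gx : ∀ q ∈ pt (C i), (am lam b N i q).1 ≤ Q.1 := fun q hq => by
    rw [hQ1]; exact (H.am_x hi hq).2
  have gs : ∀ q ∈ pt (C i), |sl v (am lam b N i q)| ≤ 2 * b := by
    intro q hq
    rcases lt_or_eq_of_le (gx q hq) with h | h
    · exact H.slope_across hvm hQn (am_mem hi hq) (by nlinarith)
    · have : am lam b N i q = Q := H.zinj (am_mem hi hq) hQm h
      rw [this, sl_comm]
      exact H.slope_node hQn hvm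
  have gf : ∀ q ∈ pt (C i), sl v (am lam b N i q) =
      -sg (i + 1) * b + sg (i + 1) *
        Fa (-sg (i + 1)) (2 * b * p.1 + sg (i + 1) * p.2.1) p.1 (1 - q.1, q.2) := by
    intro q hq
    have hq1 := ((H.geo _ hi).pbox hb hq hl).2.1
    have := H.slopeL (i := i) (X := p.1) (Y := p.2.1) (ζ := q.1) (y := q.2) (by
      have : 0 < (1 - q.1) + p.1 := by linarith
      exact this.ne')
    exact this
  have hQ0 : Q = am lam b N i (1, 0) := (am_one _ _ _ _).symm
  have hWx : W.1 < Q.1 := by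
    have := (H.am_xi hi hw).2
    rw [← hW] at this
    rw [hQ1]; linarith
  have hfar : d2 s v Q < d2 s v W := H.far hvm hQn hWm (by nlinarith)
  have hns : ¬ SameCone k o (dv s v W) (dv s v Q) := fun hs => by
    have := hvis Q hQm (fun h => by rw [h] at vQ; exact lt_irrefl _ vQ) hs
    linarith
  obtain ⟨m, hm⟩ := exists_inCone hk o (ang s v W + π)
  have hmQ : ¬ InCone k o m (ang s v Q + π) := fun h => hns (same_L (by linarith) vQ hm h)
  have hlb : b * lam ^ 2 / 8 ≤ b * lam := by nlinarith [mul_pos hb hl]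
  have hblX : b * lam ≤ b * p.1 := mul_le_mul_of_nonneg_left pb1 hb.le
  have hg : b * lam ≤ 2 * b * p.1 + sg (i + 1) * p.2.1 := by
    rcases sg_or (i + 1) with h | h <;> rw [h] <;> linarith
  have hangW : ang s v W = arctan (s + (-sg (i + 1) * b + sg (i + 1) *
      Fa (-sg (i + 1)) (2 * b * p.1 + sg (i + 1) * p.2.1) p.1 (1 - w.1, w.2.1))) := by
    unfold ang
    rw [hW, gf _ (int_mem hw)]
  have hangQ : ang s v Q = arctan (s + (-sg (i + 1) * b + sg (i + 1) *
      Fa (-sg (i + 1)) (2 * b * p.1 + sg (i + 1) * p.2.1) p.1 (0, 0))) := by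
    unfold ang
    rw [hQ0, gf _ (one_mem _)]
    norm_num
  have hκ : -sg (i + 1) = 1 ∨ -sg (i + 1) = -1 := by
    rcases sg_or (i + 1) with h | h <;> rw [h] <;> norm_num
  obtain ⟨q', hq', hq1, hq0, hqm⟩ := aim_cone (T := (fun q : ℝ × ℝ => (1 - q.1, q.2)) '' pt (C i))
    (Nd := (fun q : ℝ × ℝ => (1 - q.1, q.2)) '' Nd) (κ := -sg (i + 1))
    (g := 2 * b * p.1 + sg (i + 1) * p.2.1) (δ := p.1) (e := sg (i + 1)) (c := π) (s := s) (o := o)
    hb hbk (sg_or (i + 1)) hA (Set.image_mono hNd.sub)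
    (by
      rintro _ ⟨q, hq, rfl⟩
      have hqb := (H.geo _ hi).pbox hb hq hl
      refine Fa_le (p := (1 - q.1, q.2)) hb hl hκ pb1 (by linarith) hg ?_ hqb.2.2.1
        (by have : 0 ≤ b * lam ^ 2 := by positivity
            simp only
            linarith [hqb.2.2.2])
      rcases hq with h | h | ⟨σ, h⟩
      · right; rw [h]; simp only; linarith
      · left; rw [h]; simp
      · right
        have := ((H.geo _ hi).box _ h).2.1
        simp only at this ⊢
        linarith)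
    (by
      rintro _ ⟨q, hq, rfl⟩
      simp only
      rw [← gf q hq]
      exact gs q hq)
    ⟨(1, 0), one_mem _, by simp⟩ ⟨_, int_mem hw, rfl⟩ (m := m) (by simp only; rw [← hangW]; exact hm)
    (by rw [← hangQ]; exact hmQ)
  obtain ⟨q, hq, rfl⟩ := hq'
  have hqT := hNd.sub hq
  simp only at hqm hq1 hq0
  rw [← gf q hqT] at hqm
  rcases lt_or_eq_of_le hq1 with hlt | heq
  · exfalso
    have hlt' : w.1 < q.1 := by linarith
    have hax : W.1 < (am lam b N i q).1 := by
      rw [hW, am_fst, am_fst]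
      nlinarith
    have hvq : (am lam b N i q).1 < v.1 := by linarith [gx q hqT]
    have hsame : SameCone k o (dv s v W) (dv s v (am lam b N i q)) :=
      same_L (by linarith) hvq hm hqm
    have h1 := hvis _ (am_mem hi hqT) (fun h => by rw [h] at hvq; exact lt_irrefl _ hvq) hsame
    have h2 : d2 s v (am lam b N i q) < d2 s v W := by
      apply dist_lemma (by nlinarith)
      have h3 := gs q hqT
      have h4 : |sl (am lam b N i q) W| ≤ 3 * b := by
        rw [hW, sl_am lam b N h0.ne' (by simp only; exact hlt'.ne)]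
        have h5 := hNd.slope q hq _ (int_mem hw)
        have h6 : |sg i * b| = b := by rw [abs_mul, sg_abs, one_mul, abs_of_pos hb]
        calc |sl q (w.1, w.2.1) + sg i * b| ≤ |sl q (w.1, w.2.1)| + |sg i * b| :=
              abs_add_le _ _
          _ ≤ 3 * b := by rw [h6]; linarith
      calc |sl v (am lam b N i q) - sl (am lam b N i q) W| ≤
            |sl v (am lam b N i q)| + |sl (am lam b N i q) W| := abs_sub _ _
        _ < 2 := by linarith
    linarith
  · have hqw1 : q.1 = w.1 := by linarith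
    have hqw : q = (w.1, w.2.1) := (H.geo _ hi).pinj hl hqT (int_mem hw) hqw1
    rcases hNd.lab q hq with h | h | h
    · exfalso
      rw [h] at hqw1
      simp only at hqw1
      linarith
    · exfalso
      apply hq0
      rw [h]
      simp
    · refine ⟨0 + sg i * b, ?_, ?_⟩
      · have := am_int (lam := lam) (b := b) hi h
        simp only at this
        rw [hqw] at this
        exact this
      · have h5 := gs _ (int_mem hw)
        rw [← hW] at h5
        have h6 : |sg i * b| = b := by rw [abs_mul, sg_abs, one_mul, abs_of_pos hb]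
        calc |sl v W - (0 + sg i * b)| ≤ |sl v W| + |0 + sg i * b| := abs_sub _ _
          _ ≤ 3 * b := by rw [zero_add, h6]; linarith

/-- ordinates of two successive nodes -/
lemma yn_pair (lam b : ℝ) (N i : ℕ) :
    (yn lam b N i = 0 ∧ yn lam b N (i + 1) = b * hh lam N) ∨
    (yn lam b N i = b * hh lam N ∧ yn lam b N (i + 1) = 0) := by
  unfold yn
  rcases Nat.mod_two_eq_zero_or_one i with h | h
  · left
    rw [if_pos h, if_neg (by omega)]
    exact ⟨rfl, rfl⟩
  · right
    rw [if_neg (by omega), if_pos (by omega)]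
    exact ⟨rfl, rfl⟩

/-- slopes to two successive nodes enclose the slopes to points beyond them (right side) -/
lemma enclR {v Q R x : ℝ × ℝ} {B : ℝ} (h1 : v.1 < Q.1) (h2 : Q.1 < R.1) (h3 : R.1 ≤ x.1)
    (hv0 : 0 ≤ v.2) (hv1 : v.2 ≤ B) (hx0 : 0 ≤ x.2) (hx1 : x.2 ≤ B)
    (hQR : (Q.2 = 0 ∧ R.2 = B) ∨ (Q.2 = B ∧ R.2 = 0)) :
    (sl v Q ≤ sl v x ∧ sl v x ≤ sl v R) ∨ (sl v R ≤ sl v x ∧ sl v x ≤ sl v Q) := by
  have a1 : 0 < Q.1 - v.1 := by linarith
  have a2 : 0 < R.1 - v.1 := by linarith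
  have a3 : 0 < x.1 - v.1 := by linarith
  unfold sl
  rcases hQR with ⟨q, r⟩ | ⟨q, r⟩
  · left
    rw [q, r]
    constructor
    · rw [div_le_div_iff₀ a1 a3]
      nlinarith
    · rw [div_le_div_iff₀ a3 a2]
      rcases le_total x.2 v.2 with h | h
      · nlinarith
      · nlinarith
  · right
    rw [q, r]
    constructor
    · rw [div_le_div_iff₀ a2 a3]
      nlinarith
    · rw [div_le_div_iff₀ a3 a1]
      rcases le_total x.2 v.2 with h | h
      · nlinarith
      · nlinarith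

/-- the same on the left side -/
lemma enclL {v Q R x : ℝ × ℝ} {B : ℝ} (h1 : Q.1 < v.1) (h2 : R.1 < Q.1) (h3 : x.1 ≤ R.1)
    (hv0 : 0 ≤ v.2) (hv1 : v.2 ≤ B) (hx0 : 0 ≤ x.2) (hx1 : x.2 ≤ B)
    (hQR : (Q.2 = 0 ∧ R.2 = B) ∨ (Q.2 = B ∧ R.2 = 0)) :
    (sl v Q ≤ sl v x ∧ sl v x ≤ sl v R) ∨ (sl v R ≤ sl v x ∧ sl v x ≤ sl v Q) := by
  have key : ∀ z : ℝ × ℝ, sl v z = - sl (-v.1, v.2) (-z.1, z.2) := by
    intro z
    unfold sl
    simp only
    rw [show -z.1 - -v.1 = -(z.1 - v.1) by ring, div_neg, neg_neg]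
  have := enclR (v := (-v.1, v.2)) (Q := (-Q.1, Q.2)) (R := (-R.1, R.2)) (x := (-x.1, x.2))
    (B := B) (by simpa using h1) (by simpa using h2) (by simpa using h3) hv0 hv1 hx0 hx1 hQR
  rw [key Q, key R, key x]
  rcases this with h | h
  · right; constructor <;> linarith [h.1, h.2]
  · left; constructor <;> linarith [h.1, h.2]

end

end Pool.Agent.Lib.Helper10.YY3
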